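import Pool.Agent.Helper97.TN.St

/-!
# Project TN, module M3: all `G`-lattices
-/

set_option autoImplicit false

namespace Pool.Agent.Helper97.TN

open NumberField IsDedekindDomain Polynomial Filter Topology
open Pool.Agent.Helper95.TT Pool.Agent.Helper24.TF
open scoped Classical

noncomputable section

theorem hM3 (hG2 : StG2) (hM1 : StM1) (hM2 : StM2) : StM3 := by
  intro k _ _ m f hf hsep L _ _ _ _ σ R hR hσ ι _ n ρ χ hχ horth C b₀ b hb₀ hb
  have : FiniteDimensional k L := Module.Finite.of_restrictScalars_finite ℚ k L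
  obtain ⟨c, C', R', hR', hc, hBN⟩ := hM1 k m f hf hsep
  have hfin : Finite (L ≃ₐ[k] L) := inferInstance
  have hDiv : ∀ i, Div (χ i) := by
    intro i
    have h : χ i = fun g => ((Matrix.trace (ρ i g) : ℤ) : ℝ) := funext (hχ i)
    rw [h]
    exact hG2 (L ≃ₐ[k] L) (n i) (ρ i)
  -- a bound for the characters
  obtain ⟨T, hT0, hT⟩ : ∃ T : ℝ, 0 ≤ T ∧ ∀ i g, |χ i g| ≤ T := by
    have := Fintype.ofFinite (L ≃ₐ[k] L)
    refine ⟨∑ i, ∑ g, |χ i g|, Finset.sum_nonneg fun _ _ => Finset.sum_nonneg fun _ _ => abs_nonneg _,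
      fun i g => ?_⟩
    refine (Finset.single_le_sum (f := fun g => |χ i g|) (fun _ _ => abs_nonneg _)
      (Finset.mem_univ g)).trans ?_
    exact Finset.single_le_sum (f := fun i => ∑ g, |χ i g|)
      (fun _ _ => Finset.sum_nonneg fun _ _ => abs_nonneg _) (Finset.mem_univ i)
  have key : ∀ v, v ∉ R' → ∀ t t₂ : ℝ, |t| ≤ T → |t₂| ≤ T →
      |BN f v t t₂ - q v * ((t ^ 2 + t₂) / 2 + c v * ((t ^ 2 - t₂) / 2))| ≤ |C'| * (T ^ 2 + T) := by
    intro v hv t t₂ ht ht₂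
    refine (hBN v hv t t₂).trans ?_
    have h1 : t ^ 2 ≤ T ^ 2 := by
      rw [← sq_abs]
      exact pow_le_pow_left₀ (abs_nonneg _) ht 2
    have h2 : (0 : ℝ) ≤ t ^ 2 + |t₂| := by positivity
    calc C' * (t ^ 2 + |t₂|) ≤ |C'| * (t ^ 2 + |t₂|) :=
          mul_le_mul_of_nonneg_right (le_abs_self _) h2
      _ ≤ |C'| * (T ^ 2 + T) := mul_le_mul_of_nonneg_left (by linarith) (abs_nonneg _)
  have key0 : ∀ v, v ∉ R' → |BN f v 2 2 - q v * (3 + c v)| ≤ |C'| * 6 := by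
    intro v hv
    have h := hBN v hv 2 2
    have e : (q v : ℝ) * (((2 : ℝ) ^ 2 + 2) / 2 + c v * (((2 : ℝ) ^ 2 - 2) / 2)) = q v * (3 + c v) := by
      ring
    rw [e] at h
    refine h.trans ?_
    have e2 : (2 : ℝ) ^ 2 + |(2 : ℝ)| = 6 := by norm_num
    rw [e2]
    exact mul_le_mul_of_nonneg_right (le_abs_self _) (by norm_num)
  refine hM2 k L σ (R ∪ R') (hR.union hR') (fun v hv => hσ v fun h => hv (Or.inl h)) c hc ι χ hDiv
    horth (C + |C'| * 6 + |C'| * (T ^ 2 + T)) b₀ b (fun v hv => ?_) (fun i v hv => ?_)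
  · have h1 := hb₀ v fun h => hv (Or.inl h)
    have h2 := key0 v fun h => hv (Or.inr h)
    have h3 : (0 : ℝ) ≤ |C'| * (T ^ 2 + T) := by positivity
    have h4 := abs_sub_le (b₀ v) (BN f v 2 2) (q v * (3 + c v))
    linarith
  · have h1 := hb i v fun h => hv (Or.inl h)
    have h2 := key v (fun h => hv (Or.inr h)) (χ i (σ v)) (χ i (σ v * σ v)) (hT i _) (hT i _)
    have h3 : (0 : ℝ) ≤ |C'| * 6 := by positivity
    have h4 := abs_sub_le (b i v) (BN f v (χ i (σ v)) (χ i (σ v * σ v)))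
      (q v * (sy (χ i) (σ v) + c v * la (χ i) (σ v)))
    have h5 : |BN f v (χ i (σ v)) (χ i (σ v * σ v)) -
        q v * (sy (χ i) (σ v) + c v * la (χ i) (σ v))| ≤ |C'| * (T ^ 2 + T) := h2
    linarith

end

end Pool.Agent.Helper97.TN
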