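import Pool.Agent.Helper97.TN.St

/-!
# Project TN, module Q1: from `s = 2` to `s = 1`
-/

set_option autoImplicit false

namespace Pool.Agent.Helper97.TN

open NumberField IsDedekindDomain Polynomial Filter Topology
open Pool.Agent.Helper95.TT Pool.Agent.Helper24.TF
open scoped Classical

noncomputable section

variable {k : Type} [Field k] [NumberField k]

theorem q_two_tn (v : Pr k) : (2 : ℝ) ≤ (q v : ℝ) := by
  have h0 : q v ≠ 0 := fun h => v.ne_bot (Ideal.absNorm_eq_zero_iff.1 h)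
  have h1 : q v ≠ 1 := fun h => v.isPrime.ne_top (Ideal.absNorm_eq_one_iff.1 h)
  have h2 : 2 ≤ q v := by omega
  exact_mod_cast h2

theorem wt_nonneg_tn (s : ℝ) (v : Pr k) : 0 ≤ wt s v := by
  have h := q_two_tn v
  exact mul_nonneg (Real.log_nonneg (by linarith)) (Real.rpow_nonneg (by linarith) _)

theorem q_wt_tn (s : ℝ) (v : Pr k) :
    (q v : ℝ) * (Real.log (q v) * (q v : ℝ) ^ (-s)) = wt (s - 1) v := by
  have h : 0 < (q v : ℝ) := by linarith [q_two_tn v]
  unfold wt
  rw [show -(s - 1) = -s + 1 by ring, Real.rpow_add h, Real.rpow_one]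
  ring

theorem wt_anti_tn {s t : ℝ} (hst : s ≤ t) (v : Pr k) : wt t v ≤ wt s v := by
  have h := q_two_tn v
  unfold wt
  refine mul_le_mul_of_nonneg_left ?_ (Real.log_nonneg (by linarith))
  exact Real.rpow_le_rpow_of_exponent_le (by linarith) (by linarith)

/-- `s ↦ s - 1` -/
theorem shift_tn : Tendsto (fun s : ℝ => s - 1) (𝓝[>] 2) (𝓝[>] 1) := by
  refine tendsto_nhdsWithin_iff.2 ⟨?_, ?_⟩
  · have h : Tendsto (fun s : ℝ => s - 1) (𝓝 2) (𝓝 (2 - 1)) :=
      (continuous_id.sub continuous_const).tendsto 2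
    rw [show (2 : ℝ) - 1 = 1 by norm_num] at h
    exact h.mono_left nhdsWithin_le_nhds
  · filter_upwards [self_mem_nhdsWithin] with s hs1
    have : (2 : ℝ) < s := hs1
    show (1 : ℝ) < s - 1
    linarith

theorem hQ1 (hA2 : StA2) : StQ1 := by
  intro k _ _ b ρ M C R hR hρ hb
  have hs := (hA2 k).1
  set e : Pr k → ℝ := fun v => b v - ρ v * q v with he
  obtain ⟨M', hM0, hM⟩ : ∃ M' : ℝ, 0 ≤ M' ∧ ∀ v, |e v| ≤ M' := by
    refine ⟨|C| + ∑ v ∈ hR.toFinset, |e v|, by positivity, fun v => ?_⟩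
    by_cases hv : v ∈ R
    · have h1 : |e v| ≤ ∑ v ∈ hR.toFinset, |e v| :=
        Finset.single_le_sum (f := fun v => |e v|) (fun _ _ => abs_nonneg _)
          (hR.mem_toFinset.2 hv)
      linarith [abs_nonneg C]
    · have h1 : |e v| ≤ C := hb v hv
      have h2 : 0 ≤ ∑ v ∈ hR.toFinset, |e v| := Finset.sum_nonneg fun _ _ => abs_nonneg _
      linarith [le_abs_self C]
  have hes : ∀ s : ℝ, 1 < s → Summable (fun v : Pr k => e v * wt s v) := fun s h1 =>
    ((hs s h1).mul_left M').of_norm_bounded fun v => by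
      rw [norm_mul, Real.norm_eq_abs, Real.norm_of_nonneg (wt_nonneg_tn s v)]
      exact mul_le_mul_of_nonneg_right (hM v) (wt_nonneg_tn s v)
  have hρs : ∀ s : ℝ, 1 < s → Summable (fun v : Pr k => ρ v * wt s v) :=
    fun s h1 => ((hs s h1).mul_left M).of_norm_bounded fun v => by
      rw [norm_mul, Real.norm_of_nonneg (wt_nonneg_tn s v), Real.norm_eq_abs]
      exact mul_le_mul_of_nonneg_right (hρ v) (wt_nonneg_tn s v)
  have hdec : ∀ v, ∀ s : ℝ, b v * Real.log (q v) * (q v : ℝ) ^ (-s) =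
      ρ v * wt (s - 1) v + e v * wt s v := by
    intro v s
    have h1 := q_wt_tn s v
    have h2 : b v = e v + ρ v * q v := by
      simp only [he]
      ring
    rw [h2, ← h1]
    unfold wt
    ring
  refine ⟨fun s h => ?_, ?_⟩
  · simp only [hdec]
    exact (hρs (s - 1) (by linarith)).add (hes s (by linarith))
  have h1 : Tendsto (fun s : ℝ => (s - 2) * (M' * ∑' v : Pr k, wt 2 v)) (𝓝[>] 2) (𝓝 0) := by
    have h : Tendsto (fun s : ℝ => (s - 2) * (M' * ∑' v : Pr k, wt 2 v)) (𝓝 2)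
        (𝓝 ((2 - 2) * (M' * ∑' v : Pr k, wt 2 v))) :=
      ((continuous_id.sub continuous_const).mul continuous_const).tendsto 2
    rw [sub_self, zero_mul] at h
    exact h.mono_left nhdsWithin_le_nhds
  refine squeeze_zero_norm' ?_ h1
  filter_upwards [self_mem_nhdsWithin] with s hs1
  have hs2 : (2 : ℝ) < s := hs1
  have h2 : (s - 2) * FS b s - (s - 2) * ∑' v : Pr k, ρ v * wt (s - 1) v =
      (s - 2) * ∑' v : Pr k, e v * wt s v := by
    unfold FS
    simp only [hdec]
    rw [Summable.tsum_add (hρs (s - 1) (by linarith)) (hes s (by linarith))]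
    ring
  rw [h2, norm_mul, Real.norm_of_nonneg (by linarith)]
  refine mul_le_mul_of_nonneg_left ?_ (by linarith)
  rw [← tsum_mul_left]
  refine tsum_of_norm_bounded ((hs 2 (by norm_num)).mul_left M').hasSum fun v => ?_
  rw [norm_mul, Real.norm_eq_abs, Real.norm_of_nonneg (wt_nonneg_tn s v)]
  exact mul_le_mul (hM v) (wt_anti_tn hs2.le v) (wt_nonneg_tn s v) hM0

end

end Pool.Agent.Helper97.TN
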