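import Pool.Agent.Helper97.TN.St

/-!
# Project TN, module Q2: Bessel's inequality (after `Pool/Agent/Helper15/TT/M_A8.lean`)
-/

set_option autoImplicit false

namespace Pool.Agent.Helper97.TN

open Filter Topology Pool.Agent.Helper95.TT

theorem bdd_Q2 {V : Type} (w g : V → ℝ) (C : ℝ) (hw : ∀ v, 0 ≤ w v) (hs : Summable w)
    (hg : ∀ v, |g v| ≤ C) : Summable (fun v => w v * g v) := by
  refine Summable.of_norm_bounded (g := fun v => C * w v) (hs.mul_left C) (fun v => ?_)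
  rw [Real.norm_eq_abs, abs_mul, abs_of_nonneg (hw v), mul_comm]
  exact mul_le_mul_of_nonneg_right (hg v) (hw v)

theorem le_Q2 {V : Type} (w g : V → ℝ) (C : ℝ) (hw : ∀ v, 0 ≤ w v) (hs : Summable w)
    (hg : ∀ v, |g v| ≤ C) : |∑' v, w v * g v| ≤ C * ∑' v, w v := by
  have h1 := bdd_Q2 w g C hw hs hg
  rw [abs_le, ← tsum_mul_left, ← tsum_neg]
  constructor
  · refine Summable.tsum_le_tsum (fun v => ?_) (hs.mul_left C).neg h1
    have := (abs_le.1 (hg v)).1
    nlinarith [hw v]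
  · refine Summable.tsum_le_tsum (fun v => ?_) h1 (hs.mul_left C)
    have := (abs_le.1 (hg v)).2
    nlinarith [hw v]

theorem bes_Q2 {V ι : Type} [Fintype ι] [DecidableEq ι] (w : V → ℝ) (c : V → ℝ)
    (χ : ι → V → ℝ) (U : ι → ℝ) (B M : ℝ) (hM0 : 0 ≤ M) (hw : ∀ v, 0 ≤ w v) (hs : Summable w)
    (hc : ∀ v, |c v| ≤ B) (hχ : ∀ i v, |χ i v| ≤ M) :
    ∑ i, (∑' v, w v * (c v * χ i v)) ^ 2 / U i ≤ B ^ 2 * (∑' v, w v) +
      ∑ i, ∑ j, ((B * M * ∑' v, w v) / |U i|) * ((B * M * ∑' v, w v) / |U j|) *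
        |(∑' v, w v * (χ i v * χ j v)) - if i = j then U i else 0| := by
  have hcc : ∀ v, |c v ^ 2| ≤ B ^ 2 := by
    intro v
    rw [abs_pow]
    exact pow_le_pow_left₀ (abs_nonneg _) (hc v) 2
  have hcx : ∀ i v, |c v * χ i v| ≤ B * M := by
    intro i v
    rw [abs_mul]
    exact mul_le_mul (hc v) (hχ i v) (abs_nonneg _) ((abs_nonneg _).trans (hc v))
  have hxx : ∀ i j v, |χ i v * χ j v| ≤ M * M := by
    intro i j v
    rw [abs_mul]
    exact mul_le_mul (hχ i v) (hχ j v) (abs_nonneg _) hM0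
  obtain ⟨y, hy⟩ : ∃ y : ι → ℝ, ∀ i, y i = ∑' v, w v * (c v * χ i v) := ⟨_, fun _ => rfl⟩
  obtain ⟨G, hG⟩ : ∃ G : ι → ι → ℝ, ∀ i j, G i j = ∑' v, w v * (χ i v * χ j v) :=
    ⟨_, fun _ _ => rfl⟩
  obtain ⟨W, hW⟩ : ∃ W : ℝ, W = ∑' v, w v := ⟨_, rfl⟩
  obtain ⟨z, hz⟩ : ∃ z : ι → ℝ, ∀ i, z i = y i / U i := ⟨_, fun _ => rfl⟩
  have hzy : ∀ i, z i * y i = y i ^ 2 / U i := by
    intro i; rw [hz]; ring
  have hzz : ∀ i, z i * z i * U i = y i ^ 2 / U i := by
    intro i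
    rw [hz]
    by_cases hU : U i = 0
    · simp [hU]
    · field_simp
  have h1 : HasSum (fun v => w v * c v ^ 2) (∑' v, w v * c v ^ 2) :=
    (bdd_Q2 w _ _ hw hs hcc).hasSum
  have h2 : ∀ i, HasSum (fun v => w v * (c v * χ i v)) (y i) := by
    intro i; rw [hy]; exact (bdd_Q2 w _ _ hw hs (hcx i)).hasSum
  have h3 : ∀ i j, HasSum (fun v => w v * (χ i v * χ j v)) (G i j) := by
    intro i j; rw [hG]; exact (bdd_Q2 w _ _ hw hs (hxx i j)).hasSum
  have h4 : HasSum (fun v => w v * c v ^ 2 - 2 * ∑ i, z i * (w v * (c v * χ i v)) +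
      ∑ i, ∑ j, (z i * z j) * (w v * (χ i v * χ j v)))
      ((∑' v, w v * c v ^ 2) - 2 * ∑ i, z i * y i + ∑ i, ∑ j, (z i * z j) * G i j) :=
    (h1.sub ((hasSum_sum (fun i _ => (h2 i).mul_left (z i))).mul_left 2)).add
      (hasSum_sum (fun i _ => hasSum_sum (fun j _ => (h3 i j).mul_left (z i * z j))))
  have h5 : ∀ v, 0 ≤ w v * c v ^ 2 - 2 * ∑ i, z i * (w v * (c v * χ i v)) +
      ∑ i, ∑ j, (z i * z j) * (w v * (χ i v * χ j v)) := by
    intro v
    have e : w v * c v ^ 2 - 2 * ∑ i, z i * (w v * (c v * χ i v)) +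
      ∑ i, ∑ j, (z i * z j) * (w v * (χ i v * χ j v)) =
      w v * (c v - ∑ i, z i * χ i v) ^ 2 := by
      have e1 : ∑ i, z i * (w v * (c v * χ i v)) = w v * c v * ∑ i, z i * χ i v := by
        rw [Finset.mul_sum]; exact Finset.sum_congr rfl fun i _ => by ring
      have e2 : ∑ i, ∑ j, (z i * z j) * (w v * (χ i v * χ j v)) =
          w v * ((∑ i, z i * χ i v) * ∑ j, z j * χ j v) := by
        rw [Finset.sum_mul_sum, Finset.mul_sum]
        refine Finset.sum_congr rfl fun i _ => ?_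
        rw [Finset.mul_sum]
        exact Finset.sum_congr rfl fun j _ => by ring
      rw [e1, e2]; ring
    rw [e]
    exact mul_nonneg (hw v) (sq_nonneg _)
  have h6 := h4.nonneg h5
  have h7 : ∑' v, w v * c v ^ 2 ≤ B ^ 2 * W := by
    rw [hW]; exact (le_abs_self _).trans (le_Q2 w _ _ hw hs hcc)
  have h8 : ∀ i, |z i| ≤ (B * M * W) / |U i| := by
    intro i
    rw [hz, abs_div]
    refine div_le_div_of_nonneg_right ?_ (abs_nonneg _)
    rw [hy, hW]; exact le_Q2 w _ _ hw hs (hcx i)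
  have h9 : ∑ i, ∑ j, (z i * z j) * (G i j - if i = j then U i else 0) ≤
      ∑ i, ∑ j, ((B * M * W) / |U i|) * ((B * M * W) / |U j|) *
        |G i j - if i = j then U i else 0| := by
    refine Finset.sum_le_sum fun i _ => ?_
    refine Finset.sum_le_sum fun j _ => ?_
    refine (le_abs_self _).trans ?_
    rw [abs_mul]
    refine mul_le_mul_of_nonneg_right ?_ (abs_nonneg _)
    rw [abs_mul]
    exact mul_le_mul (h8 i) (h8 j) (abs_nonneg _) ((abs_nonneg _).trans (h8 i))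
  have h10 : ∑ i, ∑ j, (z i * z j) * (G i j - if i = j then U i else 0) =
      (∑ i, ∑ j, (z i * z j) * G i j) - ∑ i, y i ^ 2 / U i := by
    rw [← Finset.sum_sub_distrib]
    refine Finset.sum_congr rfl fun i _ => ?_
    simp only [mul_sub, Finset.sum_sub_distrib, mul_ite, mul_zero,
      Finset.sum_ite_eq, Finset.mem_univ, if_true]
    rw [hzz]
  have h13 : ∑ i, z i * y i = ∑ i, y i ^ 2 / U i := Finset.sum_congr rfl fun i _ => hzy i
  have h11 : ∑ i, (∑' v, w v * (c v * χ i v)) ^ 2 / U i = ∑ i, y i ^ 2 / U i :=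
    Finset.sum_congr rfl fun i _ => by rw [← hy]
  have h12 : ∑ i, ∑ j, ((B * M * W) / |U i|) * ((B * M * W) / |U j|) *
        |(∑' v, w v * (χ i v * χ j v)) - if i = j then U i else 0| =
      ∑ i, ∑ j, ((B * M * W) / |U i|) * ((B * M * W) / |U j|) *
        |G i j - if i = j then U i else 0| :=
    Finset.sum_congr rfl fun i _ => Finset.sum_congr rfl fun j _ => by rw [← hG]
  rw [h11, ← hW, h12]
  rw [h13] at h6
  linarith

theorem hQ2 : StQ2 := by
  intro V ι _ _ w c χ U B M hw hW hc hχ hG ε hε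
  have hlim : Tendsto (fun s => B ^ 2 * (∑' v, w s v) +
      ∑ i, ∑ j, ((B * |M| * ∑' v, w s v) / |U i|) * ((B * |M| * ∑' v, w s v) / |U j|) *
        |(∑' v, w s v * (χ i v * χ j v)) - if i = j then U i else 0|) (𝓝[>] 1)
        (𝓝 (B ^ 2 * 1 + ∑ i : ι, ∑ j : ι, ((B * |M| * 1) / |U i|) * ((B * |M| * 1) / |U j|) *
          |(if i = j then U i else 0) - if i = j then U i else 0|)) := by
    refine (hW.const_mul _).add ?_
    exact tendsto_finsetSum _ fun i _ => tendsto_finsetSum _ fun j _ =>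
      (((hW.const_mul _).div_const _).mul ((hW.const_mul _).div_const _)).mul
        ((hG i j).sub_const _).abs
  simp only [sub_self, abs_zero, Finset.sum_const_zero, mul_zero, add_zero, mul_one] at hlim
  have h1 := hlim.eventually_le_const (show B ^ 2 < B ^ 2 + ε by linarith)
  filter_upwards [h1, hw] with s hs1 hs2
  exact (bes_Q2 (w s) c χ U B |M| (abs_nonneg _) hs2.1 hs2.2 hc
    (fun i v => (hχ i v).trans (le_abs_self M))).trans hs1

end Pool.Agent.Helper97.TN
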