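import Pool.Agent.Helper95.TF.Fin
import Pool.Agent.Helper97.TN.M_Q1
import Pool.Agent.Helper97.TN.M_Q2
import Pool.Agent.Helper97.TN.M_M3
import Pool.Agent.Helper27.TN.M_G1
import Pool.Agent.Helper27.TN.M_P3
import Pool.Agent.Helper27.TN.M_P5
import Pool.Agent.Helper31.TN.M_G4
import Pool.Agent.Helper31.TN.M_G5
import Pool.Agent.Helper38.TN.M_M4
import Pool.Agent.Helper63.TN.M_M2
import Pool.Agent.Helper70.TN.M_M1
import Pool.Agent.Helper70.TN.M_P2
import Pool.Agent.Helper70.TN.M_P4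
import Pool.Agent.Helper81.TN.M_P6
import Pool.Agent.Helper82.TN.M_G2
import Pool.Agent.Helper82.TN.M_G3
import Pool.Agent.Helper82.TN.M_Q3
import Pool.Agent.Helper93.TN.M_P1

/-!
# Project TN: the modules of `St.lean` together
-/

set_option autoImplicit false

namespace Pool.Agent.Helper97.TN

open NumberField IsDedekindDomain Polynomial Filter Topology
open Pool.Agent.Helper95.TT Pool.Agent.Helper24.TF

theorem tA2 : StA2 := Pool.Agent.Helper95.TF.a2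
theorem tG3 : StG3 := Pool.Agent.Helper82.TN.hG3
theorem tG1 : StG1 := Pool.Agent.Helper27.TN.hG1 tG3
theorem tP1 : StP1 := Pool.Agent.Helper93.TN.hP1
theorem tP2 : StP2 := Pool.Agent.Helper70.TN.hP2 tA2 tP1
theorem tP5 : StP5 :=
  Pool.Agent.Helper27.TNP5.hP5 tA2 tP2 Pool.Agent.Helper27.TN.hP3 Pool.Agent.Helper70.TN.hP4
theorem tP6 : StP6 := Pool.Agent.Helper81.TN.hP6 tA2 tG1 tP5
theorem tQ1 : StQ1 := hQ1 tA2

theorem tQ3 : StQ3 := by
  intro k _ _ v h2 h hd hs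
  have h1 := Pool.Agent.Helper95.WS.weil_trF k v h2 h (by omega) hs
  have e : (2 * ((h.natDegree - 1) / 2 : ℕ) : ℝ) = 2 := by
    rw [hd]
    norm_num
  rwa [e] at h1

theorem tM1 : StM1 :=
  Pool.Agent.Helper70.TN.hM1 Pool.Agent.Helper95.TF.a7 Pool.Agent.Helper95.TF.f1
    Pool.Agent.Helper95.TF.f2 tQ3
theorem tM2 : StM2 := Pool.Agent.Helper63.TN.hM2 tA2 tG3 tP6 tQ1 hQ2
theorem tM3 : StM3 := hM3 Pool.Agent.Helper82.TN.hG2 tM1 tM2
theorem tM4 : StM4 :=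
  Pool.Agent.Helper38.TN.hM4 Pool.Agent.Helper95.TF.a10 tG3 Pool.Agent.Helper31.TN.hG4
    Pool.Agent.Helper31.TN.hG5 tM1 tM2

end Pool.Agent.Helper97.TN
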