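import Pool.Agent.Helper97.TN.All
import Pool.Agent.Helper45.TN.M_B5
import Pool.Agent.Helper40.TN.M_R5
import Pool.Agent.Helper77.TN.M_B2
import Pool.Agent.Helper77.TN.M_B4
import Pool.Agent.Helper78.TN.M_B1
import Pool.Agent.Helper78.TN.M_B3
import Pool.Agent.Helper86.TN.M_B0
import Pool.Agent.Helper47.BC.M_C1
import Pool.Agent.Helper82.BC.M_C2

/-!
# Project BC+: from a fixed Galois extension to number fields, infinite families
-/

set_option autoImplicit false

namespace Pool.Agent.Helper97.TN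

open NumberField IsDedekindDomain Polynomial Filter Topology
open Pool.Agent.Helper95.TT Pool.Agent.Helper96.BC
open scoped Classical

noncomputable section

theorem tC1 : StC1 := Pool.Agent.Helper47.BC.hC1
theorem tC2 : StC2 := Pool.Agent.Helper82.BC.hC2 tA2 tC1
theorem tB0 : StB0 := Pool.Agent.Helper86.TN.hB0
theorem tB2 : StB2 := Pool.Agent.Helper77.TN.hB2 Pool.Agent.Helper70.TN.hP4 Pool.Agent.Helper78.TN.hB1
theorem tB3 : StB3 := Pool.Agent.Helper78.TN.hB3 tA2 tG3 tP6 hQ2 tC1 tC2 tB0 tB2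
theorem tB5 : StB5 := Pool.Agent.Helper45.TN.hB5 Pool.Agent.Helper95.TF.a10 tB3 Pool.Agent.Helper77.TN.hB4

/-- perturbation of an inequality between sums of squares -/
theorem close_sq {ι : Type} (S : Finset ι) (u x : ι → ℝ → ℝ) (A : ℝ) (l : Filter ℝ)
    (h : ∀ ε > 0, ∀ᶠ s in l, ∑ i ∈ S, u i s ^ 2 ≤ A + ε)
    (hx : ∀ i ∈ S, Tendsto (fun s => x i s - u i s) l (𝓝 0)) :
    ∀ ε > 0, ∀ᶠ s in l, ∑ i ∈ S, x i s ^ 2 ≤ A + ε := by
  intro ε hε
  -- choose `η`
  set D : ℝ := |A| + ε with hD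
  have hD0 : 0 < D := by positivity
  set η : ℝ := ε / (3 * D) with hη
  have hη0 : 0 < η := by positivity
  have hE : Tendsto (fun s => (1 + 1 / η) * ∑ i ∈ S, (x i s - u i s) ^ 2) l (𝓝 0) := by
    have h1 : Tendsto (fun s => (1 + 1 / η) * ∑ i ∈ S, (x i s - u i s) ^ 2) l
        (𝓝 ((1 + 1 / η) * ∑ i ∈ S, (0 : ℝ) ^ 2)) :=
      (tendsto_finsetSum _ fun i hi => (hx i hi).pow 2).const_mul _
    simpa using h1
  filter_upwards [h (ε / 3) (by positivity),
    hE.eventually_lt_const (show (0 : ℝ) < ε / 3 by positivity)] with s h1 h2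
  have h3 : ∀ i ∈ S, x i s ^ 2 ≤ (1 + η) * u i s ^ 2 + (1 + 1 / η) * (x i s - u i s) ^ 2 := by
    intro i _
    have h4 : x i s = u i s + (x i s - u i s) := by ring
    set e := x i s - u i s with he
    rw [h4]
    have h5 : 2 * (u i s * e) ≤ η * u i s ^ 2 + 1 / η * e ^ 2 := by
      have h6 : 0 ≤ (η * u i s - e) ^ 2 / η := by positivity
      have h7 : (η * u i s - e) ^ 2 / η = η * u i s ^ 2 - 2 * (u i s * e) + 1 / η * e ^ 2 := by
        field_simp
        ring
      linarith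
    nlinarith
  have h4 : ∑ i ∈ S, x i s ^ 2 ≤ (1 + η) * ∑ i ∈ S, u i s ^ 2 +
      (1 + 1 / η) * ∑ i ∈ S, (x i s - u i s) ^ 2 := by
    refine (Finset.sum_le_sum h3).trans ?_
    rw [Finset.sum_add_distrib, Finset.mul_sum, Finset.mul_sum]
  have h5 : (1 + η) * ∑ i ∈ S, u i s ^ 2 ≤ (1 + η) * (A + ε / 3) :=
    mul_le_mul_of_nonneg_left h1 (by positivity)
  have h6 : η * (A + ε / 3) ≤ ε / 3 := by
    have h7 : A + ε / 3 ≤ D := by
      rw [hD]
      linarith [le_abs_self A]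
    calc η * (A + ε / 3) ≤ η * D := mul_le_mul_of_nonneg_left h7 hη0.le
      _ = ε / 3 := by rw [hη]; field_simp
  linarith

/-- removing a finite set of primes does not change the residue -/
theorem remove_fin {K : Type} [Field K] [NumberField K] (b : Pr K → ℝ) (R : Set (Pr K))
    (hR : R.Finite) (hs : ∀ s : ℝ, 2 < s → Summable (fun w : Pr K =>
      if w ∈ R then 0 else b w * Real.log (q w) * (q w : ℝ) ^ (-s))) :
    (∀ s : ℝ, 2 < s → Summable (fun w : Pr K => b w * Real.log (q w) * (q w : ℝ) ^ (-s))) ∧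
    Tendsto (fun s : ℝ => (s - 2) * FS b s - (s - 2) * FK R b s) (𝓝[>] 2) (𝓝 0) := by
  have hfs : ∀ s : ℝ, Summable (fun w : Pr K =>
      if w ∈ R then b w * Real.log (q w) * (q w : ℝ) ^ (-s) else 0) := by
    intro s
    refine summable_of_hasFiniteSupport (hR.subset fun w hw => ?_)
    by_contra h
    exact hw (if_neg h)
  have hadd : ∀ s : ℝ, (fun w : Pr K => b w * Real.log (q w) * (q w : ℝ) ^ (-s)) =
      fun w => (if w ∈ R then b w * Real.log (q w) * (q w : ℝ) ^ (-s) else 0) +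
        (if w ∈ R then 0 else b w * Real.log (q w) * (q w : ℝ) ^ (-s)) := by
    intro s
    funext w
    split_ifs <;> simp
  refine ⟨fun s h => ?_, ?_⟩
  · rw [hadd s]
    exact (hfs s).add (hs s h)
  have h1 : ∀ s : ℝ, ∑' w : Pr K, (if w ∈ R then b w * Real.log (q w) * (q w : ℝ) ^ (-s) else 0) =
      ∑ w ∈ hR.toFinset, b w * Real.log (q w) * (q w : ℝ) ^ (-s) := by
    intro s
    rw [tsum_eq_sum (s := hR.toFinset) fun w hw => if_neg fun h => hw (hR.mem_toFinset.2 h)]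
    exact Finset.sum_congr rfl fun w hw => if_pos (hR.mem_toFinset.1 hw)
  have hq : ∀ w : Pr K, (0 : ℝ) < q w := fun w => by linarith [q_two_tn w]
  have h2 : Tendsto (fun s : ℝ => (s - 2) * ∑ w ∈ hR.toFinset,
      b w * Real.log (q w) * (q w : ℝ) ^ (-s)) (𝓝[>] 2) (𝓝 0) := by
    have h3 : Continuous (fun s : ℝ => (s - 2) * ∑ w ∈ hR.toFinset,
        b w * Real.log (q w) * (q w : ℝ) ^ (-s)) := by
      refine (continuous_id.sub continuous_const).mul (continuous_finsetSum _ fun w _ => ?_)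
      exact continuous_const.mul
        (Real.continuous_const_rpow (hq w).ne' |>.comp continuous_neg)
    have h4 := h3.tendsto 2
    simp only [sub_self, zero_mul] at h4
    exact h4.mono_left nhdsWithin_le_nhds
  refine h2.congr' ?_
  filter_upwards [self_mem_nhdsWithin] with s hs2
  have h5 : FS b s = (∑ w ∈ hR.toFinset, b w * Real.log (q w) * (q w : ℝ) ^ (-s)) + FK R b s := by
    have h6 : FS b s = ∑' w : Pr K, ((if w ∈ R then b w * Real.log (q w) * (q w : ℝ) ^ (-s) else 0) +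
        (if w ∈ R then 0 else b w * Real.log (q w) * (q w : ℝ) ^ (-s))) := by
      unfold FS
      exact tsum_congr fun w => congrFun (hadd s) w
    rw [h6, Summable.tsum_add (hfs s) (hs s hs2), h1 s]
    rfl
  rw [h5]
  ring

/-- the finite form of the base change theorem for number fields -/
theorem finite_formB (k : Type) [Field k] [NumberField k] (b : Pr k → ℝ) (c B C : ℝ)
    (R₀ : Set (Pr k)) (hR₀ : R₀.Finite) (hb : ∀ v, v ∉ R₀ → |b v - c * q v| ≤ B * q v)
    (ι : Type) [Fintype ι] (K : ι → Type) [∀ i, Field (K i)] [∀ i, NumberField (K i)]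
    [∀ i, Algebra k (K i)] (bK : ∀ i, Pr (K i) → ℝ) (R : ∀ i, Set (Pr (K i)))
    (hR : ∀ i, (R i).Finite) (hdeg : ∀ i, 2 ≤ Module.finrank k (K i))
    (htr : ∀ i, ∀ x y x' y' : K i →ₐ[k] AlgebraicClosure k, x ≠ y → x' ≠ y' →
      ∃ g : AlgebraicClosure k ≃ₐ[k] AlgebraicClosure k, (∀ z, g (x z) = x' z) ∧ ∀ z, g (y z) = y' z)
    (hKK : ∀ i j, i ≠ j → ∃ g : AlgebraicClosure k ≃ₐ[k] AlgebraicClosure k,
      ¬ ((∀ (x : K i →ₐ[k] AlgebraicClosure k) (z : K i), g (x z) = x z) ↔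
        ∀ (x : K j →ₐ[k] AlgebraicClosure k) (z : K j), g (x z) = x z))
    (h1 : ∀ i w, w ∉ R i → |bK i w| ≤ C * q w)
    (h2 : ∀ i w v, w ∉ R i → Deg1 w v → |bK i w - b v| ≤ C) :
    (∀ s : ℝ, 2 < s → Summable (fun v : Pr k => b v * Real.log (q v) * (q v : ℝ) ^ (-s))) ∧
    (∀ i, ∀ s : ℝ, 2 < s →
      Summable (fun w : Pr (K i) => bK i w * Real.log (q w) * (q w : ℝ) ^ (-s))) ∧
    ∀ ε > 0, ∀ᶠ s : ℝ in 𝓝[>] 2,
      ∑ i, ((s - 2) * FS (bK i) s - (s - 2) * FS b s) ^ 2 ≤ B ^ 2 + ε := by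
  obtain ⟨L, iF, iN, iA, iG, iAK, iT, res, e, hres, he⟩ := Pool.Agent.Helper40.TN.hR5 k ι K
  obtain ⟨hs0, hsi, hmain, -⟩ := tB5 k b c B C R₀ hR₀ hb L ι K bK R hR hdeg
    (fun i x y x' y' hxy hxy' => by
      obtain ⟨g, hg1, hg2⟩ := htr i ((e i).symm x) ((e i).symm y) ((e i).symm x') ((e i).symm y')
        (fun h => hxy ((e i).symm.injective h)) (fun h => hxy' ((e i).symm.injective h))
      refine ⟨res g, ?_, ?_⟩
      · have h3 := (he i g _ _).1 hg1
        simpa only [Equiv.apply_symm_apply] using h3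
      · have h3 := (he i g _ _).1 hg2
        simpa only [Equiv.apply_symm_apply] using h3)
    (fun i j hij => by
      obtain ⟨g, hg⟩ := hKK i j hij
      have h5 : ∀ i, (∀ (x : K i →ₐ[k] L) (z : K i), res g (x z) = x z) ↔
          ∀ (x : K i →ₐ[k] AlgebraicClosure k) (z : K i), g (x z) = x z := by
        intro i
        constructor
        · intro h x z
          exact (he i g x x).2 (fun z => h (e i x) z) z
        · intro h x z
          have h6 := (he i g ((e i).symm x) ((e i).symm x)).1 (fun z => h _ z) z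
          rwa [(e i).apply_symm_apply] at h6
      refine ⟨res g, fun h => hg ?_⟩
      rw [h5 i, h5 j] at h
      exact h) h1 h2
  obtain ⟨hS0, hT0⟩ := remove_fin b R₀ hR₀ hs0
  have hSi := fun i => remove_fin (bK i) (R i) (hR i) (hsi i)
  refine ⟨hS0, fun i => (hSi i).1, ?_⟩
  refine close_sq Finset.univ (fun i s => (s - 2) * FK (R i) (bK i) s - (s - 2) * FK R₀ b s) _
    (B ^ 2) _ hmain fun i _ => ?_
  have h3 := (hSi i).2.sub hT0
  rw [sub_zero] at h3
  refine h3.congr fun s => ?_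
  ring

end

end Pool.Agent.Helper97.TN
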