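import Pool.Agent.Helper97.TN.St2

/-!
# Project TN, third part: intrinsic form (no splitting field, infinite families), fields with group `A_n`

The second theorem of `St.lean` (StM4) for number fields `K_i` over `k` instead of sets with an action: the trace of
Frobenius on `ℤ[Hom_k(K, k̄)]` is the number `N_1` of primes of degree one of `K` above `v`, the trace of its square is
`N_1 + 2 N_2`, `N_2` the number of primes of degree two; and the groups `A_n`, `n ≥ 6`, are admitted, too.

Every docstring is a complete proof; `StX` is proved as `theorem hX : StX` (hypotheses = earlier statements, as listed).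
-/

set_option autoImplicit false

namespace Pool.Agent.Helper97.TN

open NumberField IsDedekindDomain Polynomial Filter Topology
open Pool.Agent.Helper95.TT Pool.Agent.Helper24.TF Pool.Agent.Helper96.BC
open scoped Classical

noncomputable section

/-- `G` acts on `X` through the symmetric group (`2` or at least `4` points), or through a group that contains the alternating
group (at least `6` points) -/
def Rich (G X : Type) [Group G] [MulAction G X] [Fintype X] : Prop :=
  ((Nat.card X = 2 ∨ 4 ≤ Nat.card X) ∧ ∀ π : Equiv.Perm X, ∃ g : G, ∀ x, g • x = π x) ∨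
  (6 ≤ Nat.card X ∧ ∀ π : Equiv.Perm X, Equiv.Perm.sign π = 1 → ∃ g : G, ∀ x, g • x = π x)

/-- number of primes of degree `j` of `K` above `v` -/
def NN {k : Type} (K : Type) [Field k] [NumberField k] [Field K] [NumberField K] [Algebra k K]
    (j : ℕ) (v : Pr k) : ℕ :=
  Nat.card {w : Pr K // Above w v ∧ q w = q v ^ j}

/-- **R1** (`G4` for groups containing `A_n`).  Hypotheses: StG4.
PROOF.  In the first case of `Rich` this is G4 (`2 ≤ |X|`).  Second case: the image `H` of `G` in `Perm X` contains `A_n`, `n = |X| ≥ 6`, so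
`H = A_n` or `H = Perm X` (index `2`); in the latter case G4.  Let `H = A_n`; the mean over `G` of a function `F` of the permutation is
its mean over `A_n` (all fibres of `G → H` have the same size), i.e. the mean over `Perm X` of `F + sgn · F`.  `sy`, `la`, `la²` are (see
the proof of G4) linear combinations of functions `[π a_1 = b_1] ⋯ [π a_r = b_r]` with at most `4` different points `a_1, .., a_r`.
Let `p ≠ q` be two points different from the `a_i` (`n ≥ 6`): the bijection `π ↦ π (p q)` leaves such a function unchanged and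
changes the sign, so the mean of `sgn ·` it is `0`.  So the means over `A_n` are those over `Perm X`: G4 for the group `Perm X`. -/
def StR1 : Prop := ∀ (G : Type) [Group G] [Finite G] (X : Type) [Fintype X] [MulAction G X], Rich G X →
  avg (fun g : G => sy (fx X) g) = 2 ∧ avg (fun g : G => la (fx X) g) = 0 ∧
  0 < avg (fun g : G => la (fx X) g ^ 2) ∧ avg (fun g : G => la (fx X) g ^ 2) ≤ 2

/-- **R2** (`G5` for groups containing `A_n`).
PROOF.  As G5; only the claim needs an addition: for `a ≠ b` in `X`, `c ≠ d` in `Y` there is `h ∈ G` which fixes `a`, `b` and interchanges `c`,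
`d`, or the other way round.  Let `g₀` act trivially on `X` but not on `Y` (or the other way round, which is symmetric), `M` the group of the
permutations of `Y` induced by the elements acting trivially on `X`, `M ≠ 1`; `M` is normalized by the image of `G` in `Perm Y`.  If the image is
`Perm Y` and `|Y| = 2` or `≥ 4`, see G5.  Let `|Y| = m ≥ 6` and let the image contain `A_m`.  There is `1 ≠ ρ ∈ M ∩ A_m`: let `σ ∈ M`, `σ y ≠ y`,
`z ≠ u` not in `{y, σ y}`, `τ = (y z u) ∈ A_m`; `ρ = σ τ σ⁻¹ τ⁻¹` is even, in `M`, and `ρ ≠ 1` because `σ τ σ⁻¹` moves `σ y` and `τ` does not.  `M ∩ A_m` is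
a normal subgroup of `A_m`, which is simple (`alternatingGroup.isSimpleGroup`), so it is `A_m` and contains `(c d)(e f)`. -/
def StR2 : Prop := ∀ (G : Type) [Group G] [Finite G] (X Y : Type) [Fintype X] [Fintype Y] [MulAction G X]
  [MulAction G Y], Rich G X → Rich G Y →
  (∃ g : G, ¬ ((∀ x : X, g • x = x) ↔ ∀ y : Y, g • y = y)) →
  avg (fun g : G => la (fx X) g * la (fx Y) g) = 0

/-- **R3** (`M4` for `Rich` actions).  Hypotheses: StG3 StM1 StM2 StR1 StR2.
PROOF.  As M4 (`Pool/Agent/Helper38/TN/M_M4.lean`), with R1, R2 in place of G4, G5; only the convergence and the inequality. -/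
def StR3 : Prop := ∀ (k : Type) [Field k] [NumberField k] (m : ℕ) (f : (Py k m)[X]), f.natDegree = 3 →
  (f.map (algebraMap (Py k m) (Ky k m))).Separable →
  ∀ (L : Type) [Field L] [NumberField L] [Algebra k L] [IsGalois k L] (σ : Pr k → (L ≃ₐ[k] L))
  (R : Set (Pr k)), R.Finite → (∀ v, v ∉ R → IsFrob v (σ v)) →
  ∀ (ι : Type) [Fintype ι] (X : ι → Type) [∀ i, Fintype (X i)] [∀ i, MulAction (L ≃ₐ[k] L) (X i)],
  (∀ i, Rich (L ≃ₐ[k] L) (X i)) →
  (∀ i j, i ≠ j → ∃ g : L ≃ₐ[k] L, ¬ ((∀ x : X i, g • x = x) ↔ ∀ x : X j, g • x = x)) →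
  ∀ (C : ℝ) (b : ι → Pr k → ℝ),
  (∀ i v, v ∉ R → |b i v - BN f v (fx (X i) (σ v)) (fx (X i) (σ v * σ v))| ≤ C) →
  (∀ s : ℝ, 2 < s → ∀ i, Summable (fun v : Pr k => b i v * Real.log (q v) * (q v : ℝ) ^ (-s))) ∧
  ∀ ε > 0, ∀ᶠ s : ℝ in 𝓝[>] 2, ∑ i, ((s - 2) * FS (b i) s - 2) ^ 2 ≤ 8 + ε

/-- **R4** (primes of degree one and two, and Frobenius elements).  Hypotheses: StB2.
PROOF.  `NN K 1 v = N1 K v = fxK k K g` outside a finite set (B2).  Let `K = k(θ)`, `θ ∈ 𝓞 K`, `P = minpoly (𝓞 k) θ`, `0 ≠ d ∈ 𝓞 k` with `d 𝓞 K ⊂ 𝓞 k[θ]`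
(discriminant), `δ = ∏_(x ≠ x') (x(θ) - x'(θ)) ∈ 𝓞 L`, over the pairs of embeddings `x, x' ∈ X = (K →ₐ[k] L)`.  Let `v` be outside the finite set of
the primes with `d ∈ v` or below a prime containing `δ`, `g` a Frobenius element for `V` above `v`, `κ = 𝓞 k/v ⊂ κ' = 𝓞 L/V`, `q = |κ|`.  For
`x ∈ X` let `φ_x : 𝓞 K → κ'`, `z ↦ x(z) mod V`, with the kernel `w_x`, a prime of `K` above `v`, and image `F_x`, a field with `q w_x` elements.
`φ_(g x)(z) = φ_x(z)^q`, and `φ_x = φ_x'` implies `x = x'` (look at `θ`, `δ ∉ V`).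
(1) `g x = x` implies `t^q = t` on `F_x`, so `q w_x = q` (`κ ⊂ F_x`); `g g x = x ≠ g x` implies `t^(q²) = t` on `F_x`, not `t^q = t`, so `F_x` has more than
`q` and at most `q²` elements; their number is a power of `q`, so `q w_x = q²`.
(2) The fibres of `x ↦ w_x` on `{x : g g x = x ≠ g x}` have two elements: `w_(g x) = w_x`; if `w_x = w_x'` then `F_x = F_x'` (both are the set of the
`t` with `t^(q²) = t`) and `φ_x' = α ∘ φ_x` with an automorphism `α` of `F_x` over `κ`; there are `2` of them, `1` and `t ↦ t^q`, so `x' = x` or `g x`.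
(3) Every prime `w` of degree two above `v` is a `w_x`: let `x₀ ∈ X`, `V'` a prime of `L` with `x₀⁻¹(V') = w` (lying over); `V' ∩ 𝓞 k = v`, so
`V' = h V` for some `h ∈ L ≃ₐ[k] L` (transitivity on the primes above `v`), and `x = h⁻¹ x₀` has `w_x = w`; `F_x` has `q²` elements, so `g g x = x`, `g x ≠ x`.
So `fxK k K (g g) = N_1 + 2 N_2`. -/
def StR4 : Prop := ∀ (k K L : Type) [Field k] [NumberField k] [Field K] [NumberField K] [Field L]
  [NumberField L] [Algebra k K] [Algebra k L] [Algebra K L] [IsScalarTower k K L] [IsGalois k L],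
  ∃ R : Set (Pr k), R.Finite ∧ ∀ v, v ∉ R → ∀ g : L ≃ₐ[k] L, IsFrob v g →
    (NN K 1 v : ℝ) = fxK k K g ∧ (NN K 1 v : ℝ) + 2 * (NN K 2 v : ℝ) = fxK k K (g * g)

/-- **R5** (a common Galois extension).
PROOF.  `k̄ = AlgebraicClosure k`.  `L ⊂ k̄`: the compositum of the normal closures of the `K i` in `k̄` (`⨆ i, normalClosure k (K i) k̄`), or
the field generated by all `x(K i)`, `x : K i →ₐ[k] k̄`.  It is finite over `k` (finitely many `i`), normal (`IntermediateField.normal_iSup`) and
separable, so Galois, and a number field.  `x : K i →ₐ[k] k̄` has its image in `L` (`AlgHom.fieldRange_le_normalClosure`): `e i x` is `x` with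
the codomain `L`; its inverse is the composition with `L → k̄`.  `res = AlgEquiv.restrictNormalHom L`, surjective
(`AlgEquiv.restrictNormalHom_surjective`).  `Algebra (K i) L` from `e i x₀` for some `x₀` (`IsAlgClosed.lift`). -/
def StR5 : Prop := ∀ (k : Type) [Field k] [NumberField k] (ι : Type) [Finite ι] (K : ι → Type)
  [∀ i, Field (K i)] [∀ i, NumberField (K i)] [∀ i, Algebra k (K i)],
  ∃ (L : Type) (_ : Field L) (_ : NumberField L) (_ : Algebra k L) (_ : IsGalois k L)
    (_ : ∀ i, Algebra (K i) L) (_ : ∀ i, IsScalarTower k (K i) L)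
    (res : (AlgebraicClosure k ≃ₐ[k] AlgebraicClosure k) → (L ≃ₐ[k] L))
    (e : ∀ i, (K i →ₐ[k] AlgebraicClosure k) ≃ (K i →ₐ[k] L)), Function.Surjective res ∧
    ∀ (i : ι) (g : AlgebraicClosure k ≃ₐ[k] AlgebraicClosure k) (x x' : K i →ₐ[k] AlgebraicClosure k),
      (∀ z, g (x z) = x' z) ↔ ∀ z, res g (e i x z) = e i x' z

end

end Pool.Agent.Helper97.TN
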