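import Pool.Agent.Helper97.TN.All
import Pool.Agent.Helper97.TN.St3
import Pool.Agent.Helper47.TK.M_Res
import Pool.Agent.Helper45.TN.M_B5

/-!
# Project TN: from the theorem for `G`-sets to number fields
-/

set_option autoImplicit false

namespace Pool.Agent.Helper97.TN

open NumberField IsDedekindDomain Polynomial Filter Topology
open Pool.Agent.Helper95.TT Pool.Agent.Helper24.TF Pool.Agent.Helper96.BC
open scoped Classical

noncomputable section

/-- the permutation `π` of the embeddings of `K` is induced by an automorphism of `k̄` -/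
def InducedT (k K : Type) [Field k] [NumberField k] [Field K] [NumberField K] [Algebra k K]
    (π : Equiv.Perm (K →ₐ[k] AlgebraicClosure k)) : Prop :=
  ∃ g : AlgebraicClosure k ≃ₐ[k] AlgebraicClosure k, ∀ (x : K →ₐ[k] AlgebraicClosure k) (z : K),
    g (x z) = π x z

/-- symmetric group, or group containing the alternating group -/
def SnAnT (k K : Type) [Field k] [NumberField k] [Field K] [NumberField K] [Algebra k K] : Prop :=
  ((Module.finrank k K = 2 ∨ 4 ≤ Module.finrank k K) ∧ ∀ π, InducedT k K π) ∨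
  (6 ≤ Module.finrank k K ∧ ∀ π, Equiv.Perm.sign π = 1 → InducedT k K π)

theorem rich_of (k K L : Type) [Field k] [NumberField k] [Field K] [NumberField K] [Field L]
    [NumberField L] [Algebra k K] [Algebra k L] [Algebra K L] [IsScalarTower k K L] [IsGalois k L]
    (res : (AlgebraicClosure k ≃ₐ[k] AlgebraicClosure k) → (L ≃ₐ[k] L))
    (e : (K →ₐ[k] AlgebraicClosure k) ≃ (K →ₐ[k] L))
    (he : ∀ (g : AlgebraicClosure k ≃ₐ[k] AlgebraicClosure k) (x x' : K →ₐ[k] AlgebraicClosure k),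
      (∀ z, g (x z) = x' z) ↔ ∀ z, res g (e x z) = e x' z)
    (h : SnAnT k K) :
    @Rich (L ≃ₐ[k] L) (K →ₐ[k] L) _ (Pool.Agent.Helper45.TN.act k K L) (Fintype.ofFinite _) := by
  have hc := Pool.Agent.Helper45.TN.card_emb k K L
  have key : ∀ π : Equiv.Perm (K →ₐ[k] L),
      InducedT k K ((e.trans π).trans e.symm) →
      ∃ g : L ≃ₐ[k] L, ∀ x, (Pool.Agent.Helper45.TN.act k K L).toSMul.smul g x = π x := by
    rintro π ⟨g, hg⟩
    refine ⟨res g, fun x => ?_⟩
    rw [Pool.Agent.Helper45.TN.smul_eq_iff]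
    have h1 := (he g (e.symm x) (e.symm (π x))).1 (fun z => by
      rw [hg]
      show e.symm (π (e (e.symm x))) z = _
      rw [e.apply_symm_apply])
    intro z
    have h2 := h1 z
    rwa [e.apply_symm_apply, e.apply_symm_apply] at h2
  rcases h with ⟨h1, h2⟩ | ⟨h1, h2⟩
  · refine Or.inl ⟨by rw [hc]; exact h1, fun π => key π (h2 _)⟩
  · refine Or.inr ⟨by rw [hc]; exact h1, fun π hπ => key π (h2 _ ?_)⟩
    have h3 : ((e.trans π).trans e.symm) = e.symm.permCongr π := by
      ext x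
      rfl
    have h4 := @Equiv.Perm.sign_permCongr (K →ₐ[k] L)
      (fun a b => Classical.propDecidable (a = b)) (K →ₐ[k] AlgebraicClosure k)
      (Fintype.ofFinite _) (fun a b => Classical.propDecidable (a = b)) _ e.symm π
    rw [h3]
    exact h4.trans hπ

/-- the finite form of the theorem for number fields -/
theorem finite_form (hR3 : StR3) (hR4 : StR4) (hR5 : StR5) (hB0 : StB0)
    (k : Type) [Field k] [NumberField k] (m : ℕ) (f : (Py k m)[X]) (hf : f.natDegree = 3)
    (hfs : (f.map (algebraMap (Py k m) (Ky k m))).Separable)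
    (ι : Type) [Fintype ι] (K : ι → Type) [∀ i, Field (K i)] [∀ i, NumberField (K i)]
    [∀ i, Algebra k (K i)] (hK : ∀ i, SnAnT k (K i))
    (hKK : ∀ i j, i ≠ j → ∃ g : AlgebraicClosure k ≃ₐ[k] AlgebraicClosure k,
      ¬ ((∀ (x : K i →ₐ[k] AlgebraicClosure k) (z : K i), g (x z) = x z) ↔
        ∀ (x : K j →ₐ[k] AlgebraicClosure k) (z : K j), g (x z) = x z))
    (C : ℝ) (R : Set (Pr k)) (hR : R.Finite) (b : ι → Pr k → ℝ)
    (hb : ∀ i v, v ∉ R → |b i v - BN f v (NN (K i) 1 v)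
      ((NN (K i) 1 v : ℝ) + 2 * (NN (K i) 2 v : ℝ))| ≤ C) :
    (∀ s : ℝ, 2 < s → ∀ i, Summable (fun v : Pr k => b i v * Real.log (q v) * (q v : ℝ) ^ (-s))) ∧
    ∀ ε > 0, ∀ᶠ s : ℝ in 𝓝[>] 2, ∑ i, ((s - 2) * FS (b i) s - 2) ^ 2 ≤ 8 + ε := by
  obtain ⟨L, iF, iN, iA, iG, iAK, iT, res, e, hres, he⟩ := hR5 k ι K
  obtain ⟨σ, hσ⟩ := hB0 k L
  choose R' hR' h4 using fun i => hR4 k (K i) L
  have hRf : (R ∪ ⋃ i, R' i).Finite := hR.union (Set.finite_iUnion hR')
  letI iM : ∀ i, MulAction (L ≃ₐ[k] L) (K i →ₐ[k] L) := fun i => Pool.Agent.Helper45.TN.act k (K i) L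
  letI iFt : ∀ i, Fintype (K i →ₐ[k] L) := fun i => Fintype.ofFinite _
  refine hR3 k m f hf hfs L σ (R ∪ ⋃ i, R' i) hRf (fun v _ => hσ v) ι (fun i => K i →ₐ[k] L)
    (fun i => rich_of k (K i) L res (e i) (he i) (hK i)) (fun i j hij => ?_) C b (fun i v hv => ?_)
  · obtain ⟨g, hg⟩ := hKK i j hij
    have h5 : ∀ i, (∀ x : K i →ₐ[k] L, res g • x = x) ↔
        ∀ (x : K i →ₐ[k] AlgebraicClosure k) (z : K i), g (x z) = x z := by
      intro i
      constructor
      · intro h x z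
        refine (he i g x x).2 (fun z => ?_) z
        exact (Pool.Agent.Helper45.TN.smul_eq_iff (res g) (e i x) (e i x)).1 (h (e i x)) z
      · intro h x
        refine (Pool.Agent.Helper45.TN.smul_eq_iff (res g) x x).2 fun z => ?_
        have h6 := (he i g ((e i).symm x) ((e i).symm x)).1 (fun z => h _ z) z
        rwa [(e i).apply_symm_apply] at h6
    refine ⟨res g, fun h => hg ?_⟩
    rw [h5 i, h5 j] at h
    exact h
  · have h6 : v ∉ R := fun h => hv (Or.inl h)
    have h7 : v ∉ R' i := fun h => hv (Or.inr (Set.mem_iUnion.2 ⟨i, h⟩))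
    have h8 := h4 i v h7 (σ v) (hσ v)
    have h9 := hb i v h6
    rw [h8.2, h8.1] at h9
    have e1 : fxK k (K i) (σ v) = fx (K i →ₐ[k] L) (σ v) :=
      (Pool.Agent.Helper45.TN.fx_eq k (K i) L (σ v)).symm
    have e2 : fxK k (K i) (σ v * σ v) = fx (K i →ₐ[k] L) (σ v * σ v) :=
      (Pool.Agent.Helper45.TN.fx_eq k (K i) L (σ v * σ v)).symm
    rw [e1, e2] at h9
    exact h9

end

end Pool.Agent.Helper97.TN
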