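import Pool.Agent.Helper24.TF.StF
import Pool.Agent.Helper95.WS.St

/-!
# Project TN (MP_6090f9_nt): the residue formula for Weil restrictions and for all twisted powers of elliptic curves

THEOREM.  `k` a number field, `m ≥ 0`, `K = k(y_1..y_m)`, `E : z² = f(y,x)` an elliptic curve over `K` (`f` cubic in `x`, `m = 0`:
an elliptic curve over `k`), `L/k` a finite Galois extension with group `G`.

(I) For a `G`-lattice `M` with character `χ` let `A = E ⊗ M` (the twisted form of `E^(rank M)`), `H²(A) = Λ²(H¹(E) ⊗ M)`,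
`r = dim (Sym² M)^G` (the rank of `NS(A/K)`, if `E` has no complex multiplication), `m = dim (Λ² M)^G`,
`U = ⟨Λ²χ - m, Λ²χ - m⟩`.  For every finite family of lattices `M_i` for which the `Λ²χ_i - m_i` are pairwise orthogonal (for
example if `M_i` is a lattice for `Gal(L_i/k)` and `L_i ∩ L_j = k` for `i ≠ j`), and every `ε > 0`:
`∑_i ((s-2)(F_i(s) - m_i F_0(s)) - (r_i - 3 m_i))²/U_i ≤ 4 + ε` for all `s > 2` close to `2`; `F_0` is the function of `E × E`.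

(II) Let `K_i/k` be extensions of degree `n_i = 2` or `n_i ≥ 4` whose Galois closures `L_i` (inside `L`) have the group
`S_(n_i)` and are pairwise different, `F_i` the function of the Weil restriction `X_i = Res_(K_i/k) E` (dimension `n_i`).  Then
`∑_i ((s-2) F_i(s) - 2)² ≤ 8 + ε` for all `s > 2` close to `2`.  If `n_i ≥ 4` then `rank NS(X_i/K) = 2`.  So, if `L_2(s, X_i)` is
meromorphic at `s = 2` then its order there is exactly `- rank NS(X_i/K)`, for ALL `K_i` with at most `8` exceptions (all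
degrees together).

METHOD.  1. Frobenius' density theorem in the form: for every function `φ` on `G` with `φ(g) = φ(h)` whenever `g`, `h` generate
conjugate subgroups: `(s-1) ∑_v φ(Frob_v) log q_v q_v^(-s)` tends to the mean value of `φ` (elementary: permutation
characters are numbers of roots of polynomials modulo `v`, and only the pole of Dedekind zeta functions at `1` is used).
2. Bessel's inequality for the function `v ↦ (a_v² - 2 q_v)/q_v`, bounded by `2` (Weil bound), and the orthogonal functions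
`Λ²χ_i(Frob_v)`.  3. Group theory of `S_n`: the `Λ²χ_i` have mean value `0`, norm `≤ 2` and are pairwise orthogonal.

Notation: `Pool/Agent/Helper95/TT/St.lean` (`Pr`, `q`, `wt`, StA..) and `Pool/Agent/Helper24/TF/StF.lean` (`Py`, `Kv`, `val`,
`fib`, `trF`, StF..).  Every docstring is a complete proof; `StX` is proved as `theorem hX : StX` (hypotheses = earlier
statements, as listed).
-/

set_option autoImplicit false

namespace Pool.Agent.Helper97.TN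

open NumberField IsDedekindDomain Polynomial Filter Topology
open Pool.Agent.Helper95.TT Pool.Agent.Helper24.TF
open scoped Classical

noncomputable section

/-! ## Definitions -/

/-- number of fixed points of `g` on `X` (the character of the permutation module `ℤ[X]`) -/
def fx {G : Type} [Group G] (X : Type) [MulAction G X] (g : G) : ℝ := (Nat.card {x : X // g • x = x} : ℕ)

/-- mean value of a function on a finite group -/
def avg {G : Type} (φ : G → ℝ) : ℝ := (∑ᶠ g, φ g) / (Nat.card G : ℕ)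

/-- the character of `Sym² M`, if `χ` is the character of `M` -/
def sy {G : Type} [Group G] (χ : G → ℝ) (g : G) : ℝ := (χ g ^ 2 + χ (g * g)) / 2

/-- the character of `Λ² M`, if `χ` is the character of `M` -/
def la {G : Type} [Group G] (χ : G → ℝ) (g : G) : ℝ := (χ g ^ 2 - χ (g * g)) / 2

/-- `φ(g) = φ(h)` whenever `g` and `h` generate conjugate subgroups -/
def Div {G : Type} [Group G] (φ : G → ℝ) : Prop :=
  ∀ (g x : G) (a : ℕ), Nat.Coprime a (orderOf g) → φ (x * g ^ a * x⁻¹) = φ g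

/-- `g` is a Frobenius element of the Galois extension `L/k` at `v` -/
def IsFrob {k L : Type} [Field k] [NumberField k] [Field L] [NumberField L] [Algebra k L] (v : Pr k)
    (g : L ≃ₐ[k] L) : Prop :=
  ∃ V : Pr L, (∀ x : 𝓞 k, algebraMap (𝓞 k) (𝓞 L) x ∈ V.asIdeal ↔ x ∈ v.asIdeal) ∧
    ∀ x y : 𝓞 L, g (x : L) = (y : L) → y - x ^ q v ∈ V.asIdeal

variable {k : Type} [Field k] [NumberField k] {m : ℕ}

/-- number of roots of `P` in the residue field at `v` -/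
def nr (P : (𝓞 k)[X]) (v : Pr k) : ℝ :=
  (Nat.card {x : Kv v // (P.map (Ideal.Quotient.mk v.asIdeal)).eval x = 0} : ℕ)

/-- the fibre `E_y` is smooth -/
def Good1 (f : (Py k m)[X]) (v : Pr k) (y : Fin m → Kv v) : Prop :=
  (fib f v y).natDegree = f.natDegree ∧ Squarefree (fib f v y)

/-- `q_v^(-m)` times the sum over the smooth fibres `E_y` over the residue field at `v` of the trace of Frobenius on
`H²(E_y ⊗ M) = Λ²(H¹(E_y) ⊗ M)`, if Frobenius and its square have the traces `t` and `t₂` on `M`: this trace is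
`(T² - T₂)/2`, where `T = a t` and `T₂ = (a² - 2q) t₂` are the traces of Frobenius and of its square on `H¹(E_y) ⊗ M`,
`a` the trace of Frobenius on `H¹(E_y)` -/
def BN (f : (Py k m)[X]) (v : Pr k) (t t₂ : ℝ) : ℝ :=
  (∑ᶠ y : Fin m → Kv v, if Good1 f v y then
    (((trF v (fib f v y) : ℝ) * t) ^ 2 - ((trF v (fib f v y) : ℝ) ^ 2 - 2 * q v) * t₂) / 2 else 0) / (q v : ℝ) ^ m

/-- the function `F(s) = ∑ b_v log q_v q_v^(-s)` -/
def FS (b : Pr k → ℝ) (s : ℝ) : ℝ := ∑' v : Pr k, b v * Real.log (q v) * (q v : ℝ) ^ (-s)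

/-! ## Group theory -/

/-- **G1** (functions constant on the divisions of a group are combinations of permutation characters).  Hypotheses: StG3.
PROOF.  `Ω = G ⧸ C`, `C = zpowers g`: `fx Ω h ≠ 0` iff `x⁻¹ h x ∈ C` for some `x`.  (i) `fx Ω` has `Div` (G3).  (ii) `fx Ω g ≥ 1`
(the coset `C` itself).  (iii) If `fx Ω h ≠ 0` then `h = x g^j x⁻¹`, so `orderOf h ∣ orderOf g`, and if the orders are equal then
`j` is coprime to `orderOf g` and `φ h = φ g` for every `φ` with `Div`.  Let `W(φ) = ∑_(h : φ h ≠ 0) (|G|+1)^(orderOf h) ∈ ℕ`; strong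
induction on `W(φ)`.  `φ = 0`: `0 ∈ P`.  Otherwise choose `g` with `φ g ≠ 0` and of maximal order `N`.
`φ' = φ - (φ g / fx Ω g) • fx Ω` has `Div`.  For `h` of order `> N`: `φ h = 0`, `fx Ω h = 0`, so `φ' h = 0`.  For `h` of order `N`: if
`fx Ω h ≠ 0` then `φ h = φ g`, `fx Ω h = fx Ω g`, so `φ' h = 0`; if `fx Ω h = 0` then `φ' h = φ h`; and `φ' g = 0 ≠ φ g`.  So `W(φ')` is at most
`W(φ)` minus `(|G|+1)^N` plus `∑_(h of order < N) (|G|+1)^(orderOf h) ≤ |G| (|G|+1)^(N-1) < (|G|+1)^N`, so `W(φ') < W(φ)` and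
`φ' ∈ P`, hence `φ ∈ P`. -/
def StG1 : Prop := ∀ (G : Type) [Group G] [Finite G] (P : Submodule ℝ (G → ℝ)),
  (∀ (Ω : Type) [Fintype Ω] [MulAction G Ω], (fun g => fx Ω g) ∈ P) → ∀ φ : G → ℝ, Div φ → φ ∈ P

/-- **G2** (characters of lattices).
PROOF.  `χ g = trace (ρ g)`.  `trace (ρ(x) ρ(g^a) ρ(x⁻¹)) = trace (ρ(g^a))` (`Matrix.trace_mul_comm`, `ρ(x⁻¹) ρ(x) = 1`).  Let `N = orderOf g`,
`a` coprime to `N`, `T` a bound for all `|trace (ρ h)|`, `h ∈ G`.  Dirichlet's theorem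
(`Nat.setOf_prime_and_eq_mod_infinite`, or `Nat.forall_exists_prime_gt_and_eq_mod`) gives a prime `p > 2T`, `p ≡ a` mod `N`, so
`g^p = g^a`.  Modulo `p`: `trace (ρ(g)^p) = (trace ρ(g))^p = trace ρ(g)` (`ZMod.trace_pow_card` for the matrix mapped to `ZMod p`,
`ZMod.pow_card`).  So `p` divides `trace ρ(g^a) - trace ρ(g)`, which has absolute value `≤ 2T < p`, so it is `0`. -/
def StG2 : Prop := ∀ (G : Type) [Group G] [Finite G] (n : ℕ) (ρ : G →* Matrix (Fin n) (Fin n) ℤ),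
  Div (fun g => ((Matrix.trace (ρ g) : ℤ) : ℝ))

/-- **G3** (permutation characters, and operations).
PROOF.  (i) `b` with `a b ≡ 1` mod `orderOf g`: `g = (g^a)^b`, so `g` and `g^a` have the same fixed points; `y ↦ x⁻¹ • y` is a bijection
from the fixed points of `x g^a x⁻¹` to those of `g^a`.  (ii) `(x g^a x⁻¹)(x g^a x⁻¹) = x (g g)^a x⁻¹`, and `a` is coprime to
`orderOf (g g)`, a divisor of `orderOf g`.  So `g ↦ χ (g g)` has `Div`, and `Div` is preserved by all pointwise operations. -/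
def StG3 : Prop := ∀ (G : Type) [Group G] [Finite G],
  (∀ (Ω : Type) [Fintype Ω] [MulAction G Ω], Div (fun g : G => fx Ω g)) ∧
  ∀ χ : G → ℝ, Div χ → Div (sy χ) ∧ Div (la χ)

/-- **G4** (the symmetric group: `Sym²` and `Λ²` of the permutation representation).
PROOF.  The fibres of `G → Perm X` (surjective) have the same number of elements, so `avg` over `G` of a function of the
permutation `π = π_g` is its mean over `Perm X`; `n = |X| ≥ 2`.  For `a ≠ b` in `X`: `I_ab(π) = [π a = a][π b = b]`,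
`J_ab(π) = [π a = b][π b = a]`, `e_ab = I_ab - J_ab`.  With `f = fx X π` and `t = fx X π² - f` (the number of the elements in 2-cycles):
`∑_(a ≠ b) I_ab = f² - f`, `∑_(a ≠ b) J_ab = t`.  So `la = (1/2) ∑_(a ≠ b) e_ab`, `sy = f + (1/2) ∑_(a ≠ b) (I_ab + J_ab)`.
Counting: the permutations fixing `j` given different points are `(n-j)!` in number; composition with the transposition
`(a b)` maps `I_ab` to `J_ab`.  So the means of `f`, `∑ I_ab`, `∑ J_ab` are all `1`: `avg sy = 2`, `avg la = 0`.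
`la² = (1/4) ∑_(a ≠ b, c ≠ d) e_ab e_cd`.  (1) `{c,d} = {a,b}` (two ordered pairs for each `(a,b)`): `e_cd = e_ab`, `e_ab² = I_ab + J_ab`, sum
over `π` is `2 (n-2)!`; total `4 n!`.  (2) Exactly one common element, for example `c = a`, `d` new: `J_ab I_cd = J_ab J_cd = I_ab J_cd = 0`, so
`e_ab e_cd = [π fixes a, b, d]`; the same in the other three cases; total `4 n(n-1)(n-2) (n-3)! = 4 n!` for `n ≥ 3`, and `0` for
`n = 2`.  (3) Disjoint: `π ↦ (a b) π` is a bijection which changes `e_ab` to `-e_ab` and leaves `e_cd`; total `0`.  So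
`avg (la²) = 1` or `2`. -/
def StG4 : Prop := ∀ (G : Type) [Group G] [Finite G] (X : Type) [Fintype X] [MulAction G X],
  2 ≤ Nat.card X → (∀ π : Equiv.Perm X, ∃ g : G, ∀ x, g • x = π x) →
  avg (fun g : G => sy (fx X) g) = 2 ∧ avg (fun g : G => la (fx X) g) = 0 ∧
  0 < avg (fun g : G => la (fx X) g ^ 2) ∧ avg (fun g : G => la (fx X) g ^ 2) ≤ 2

/-- **G5** (orthogonality).
PROOF.  For `a ≠ b` in `X` put `e_ab(g) = [g a = a][g b = b] - [g a = b][g b = a]`; `la (fx X) = (1/2) ∑_(a ≠ b) e_ab` (see G4), the same for `Y`: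
`e'_cd`.  CLAIM: for all `a ≠ b` in `X`, `c ≠ d` in `Y` there is `h ∈ G` which fixes `a`, `b` and interchanges `c`, `d`, or interchanges `a`, `b`
and fixes `c`, `d`.  Then `e_ab(h g) e'_cd(h g) = - e_ab(g) e'_cd(g)` (`e_ab(h g) = e_ab(g)` if `h` fixes `a` and `b`, `- e_ab(g)` if it interchanges
them), so `∑_g e_ab(g) e'_cd(g) = 0`, and the sum over `a,b,c,d` is `4 |G| avg (la la')`.
PROOF OF THE CLAIM.  By symmetry there is `g₀` which acts trivially on `X` but not on `Y` (interchange `X` and `Y` otherwise).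
Let `M ⊂ Perm Y` be the set of the permutations of `Y` induced by the elements of `G` acting trivially on `X`: a subgroup,
normal in `Perm Y` (as `G → Perm Y` is surjective), `M ≠ 1`.  If `|Y| = 2` then `M = Perm Y` contains the transposition `(c d)`: done (`h` acts
trivially on `X`).  `|Y| ≥ 4`: let `σ ∈ M`, `σ y ≠ y`; choose `z ∉ {y, σ y, σ⁻¹ y}`.  `M` contains `σ τ σ⁻¹ τ⁻¹ = (σy σz)(y z)`,
`τ = (y z)`.  `σ y ≠ y, z` and `σ z ≠ y`.  If `σ z ≠ z` this is a product of two disjoint transpositions.  If `σ z = z` it is the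
3-cycle `(σy z)(y z)`, and all 3-cycles (conjugates) are in `M`, hence `(1 2 3)(1 2 4) = (1 3)(2 4)` is: in both cases `M` contains a
product of two disjoint transpositions, hence all of them, hence `(c d)(e f)`, where `e ≠ f` are different from `c, d`
(`|Y| ≥ 4`): this element of `G` acts trivially on `X` and interchanges `c`, `d`. -/
def StG5 : Prop := ∀ (G : Type) [Group G] [Finite G] (X Y : Type) [Fintype X] [Fintype Y] [MulAction G X]
  [MulAction G Y], (Nat.card X = 2 ∨ 4 ≤ Nat.card X) → (Nat.card Y = 2 ∨ 4 ≤ Nat.card Y) →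
  (∀ π : Equiv.Perm X, ∃ g : G, ∀ x, g • x = π x) → (∀ π : Equiv.Perm Y, ∃ g : G, ∀ y, g • y = π y) →
  (∃ g : G, ¬ ((∀ x : X, g • x = x) ↔ ∀ y : Y, g • y = y)) →
  avg (fun g : G => la (fx X) g * la (fx Y) g) = 0

/-! ## Primes -/

/-- **P1** (primes of `F = k[x]/(P)`).
PROOF.  `F = AdjoinRoot (P.map _)` (irreducible), a number field, `θ ∈ 𝓞 F` the root, `n = deg P = [F : k]`, `N = n`,
`π w = w ∩ 𝓞 k`.  For the primes `w` above `v`: `∑ e_w f_w = n` (`Ideal.sum_ramification_inertia`), `q w = (q v)^(f_w)`; so there are at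
most `n` of them and `1 ≤ f_w ≤ n`.  There is `0 ≠ d ∈ 𝓞 k` with `d 𝓞 F ⊂ 𝓞 k[θ]` (the discriminant of `1, θ, .., θ^(n-1)`,
`Algebra.discr_mul_isIntegral_mem_adjoin`).  `R = {v | d ∈ v}` is finite.  Let `v ∉ R`, `κ = 𝓞 k/v`, `P̄ = P mod v`.  For `w` above `v` with
`q w = q v` the injection `κ → 𝓞 F/w` is bijective, so there is a unique `a_w ∈ κ` which is mapped to `θ mod w`, and `P̄(a_w) = 0`.
INJECTIVE: for `x ∈ 𝓞 F` write `d x = g(θ)`, `g ∈ 𝓞 k[X]`; `d ∉ w`, so `x ∈ w` iff `g(θ) ∈ w` iff `ḡ(a_w) = 0`; so `w` is determined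
by `a_w`.  SURJECTIVE: let `P̄(a) = 0`.  For `x ∈ 𝓞 F`, `d x = g(θ)`, put `φ(x) = ḡ(a)/d̄ ∈ κ`.  Well defined: if `g(θ) = g'(θ)` then `P ∣ g - g'`
(over `k`, hence over `𝓞 k`, as `P` is monic), so `ḡ(a) = ḡ'(a)`.  `φ` is additive, `φ(1) = 1`, and multiplicative: `d x = g(θ)`,
`d y = h(θ)`, `d(x y) = l(θ)` give `d l(θ) = g(θ) h(θ)`, `d̄ l̄(a) = ḡ(a) h̄(a)`.  `φ(θ) = a`, `φ` is the reduction on `𝓞 k`, so it is
surjective, and `w = ker φ` is a prime above `v` with `𝓞 F/w ≅ κ`, `a_w = a`. -/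
def StP1 : Prop := ∀ (k : Type) [Field k] [NumberField k] (P : (𝓞 k)[X]), P.Monic →
  Irreducible (P.map (algebraMap (𝓞 k) k)) →
  ∃ (F : Type) (_ : Field F) (_ : NumberField F) (π : Pr F → Pr k) (N : ℕ) (R : Set (Pr k)), R.Finite ∧
    (∀ w, ∃ f : ℕ, 1 ≤ f ∧ f ≤ N ∧ q w = q (π w) ^ f) ∧
    (∀ v, {w | π w = v}.Finite ∧ {w | π w = v}.ncard ≤ N) ∧
    ∀ v, v ∉ R → ({w | π w = v ∧ q w = q v}.ncard : ℝ) = nr P v

/-- **P2** (mean value of the number of roots).  Hypotheses: StA2 StP1.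
PROOF.  As A4.  Let `F, π, N, R` be from P1, `T_K(s) = ∑_v wt s v` over the primes of `K`.  Group the primes of `F` by `v = π w` (all
terms are `≥ 0`).  `v ∉ R`: the `w` with `q w = q v` contribute `nr P v · wt s v`; for the others `q w = (q v)^f`, `2 ≤ f ≤ N`,
`wt s w = f log q_v q_v^(-f s) ≤ N log q_v q_v^(-2)` (`s ≥ 1`), total `≤ N² wt 2 v`.  `v ∈ R` (finitely many):
`0 ≤ ∑_(π w = v) wt s w ≤ ∑_(π w = v) wt 1 w` and `0 ≤ nr P v · wt s v ≤ nr P v · wt 1 v` for `s ≥ 1`.  So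
`|T_F(s) - ∑_v nr P v · wt s v| ≤ C` for `s > 1` (`∑ wt 2 v` converges; `nr P v ≤ deg P`, `P` monic, so the second series converges), and
`(s-1) T_F(s) → 1` (A2). -/
def StP2 : Prop := ∀ (k : Type) [Field k] [NumberField k] (P : (𝓞 k)[X]), P.Monic →
  Irreducible (P.map (algebraMap (𝓞 k) k)) →
  Tendsto (fun s : ℝ => (s - 1) * ∑' v : Pr k, nr P v * wt s v) (𝓝[>] 1) (𝓝 1)

/-- **P3** (a transitive `G`-set is the set of roots of an irreducible polynomial).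
PROOF.  `ω₀ ∈ Ω`, `H` its stabilizer, `F = L^H` (`IntermediateField.fixedField`).  Primitive element: `F = k(θ)`, and we can take
`θ ∈ 𝓞 L` (multiply by a nonzero integer).  `g θ = θ` iff `g ∈ H` (`IntermediateField.fixingSubgroup_fixedField`; `g θ = θ` iff `g` is
trivial on `k(θ) = F`).  For `ω = g • ω₀` put `θ_ω = g θ ∈ 𝓞 L`: well defined, injective, `g θ_ω = θ_(g ω)`.  `P = minpoly (𝓞 k) θ`:
monic, `P` over `k` is `minpoly k θ` (`minpoly.isIntegrallyClosed_eq_field_fractions'`), irreducible.  Its roots in `L` are the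
conjugates `g θ`, i.e. the `θ_ω`, each simple, and it splits (`IsGalois`), so `P = ∏_ω (X - θ_ω)` over `L`, hence over `𝓞 L`. -/
def StP3 : Prop := ∀ (k L : Type) [Field k] [NumberField k] [Field L] [NumberField L] [Algebra k L]
  [IsGalois k L] (Ω : Type) [Fintype Ω] [MulAction (L ≃ₐ[k] L) Ω] [MulAction.IsPretransitive (L ≃ₐ[k] L) Ω],
  Nonempty Ω → ∃ (θ : Ω → 𝓞 L) (P : (𝓞 k)[X]), Function.Injective θ ∧
    (∀ (g : L ≃ₐ[k] L) (ω : Ω), g (θ ω : L) = (θ (g • ω) : L)) ∧ P.Monic ∧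
    Irreducible (P.map (algebraMap (𝓞 k) k)) ∧
    P.map (algebraMap (𝓞 k) (𝓞 L)) = ∏ ω, (X - C (θ ω))

/-- **P4** (roots modulo `v` and fixed points of Frobenius).
PROOF.  `δ = ∏_(ω ≠ ω') (θ_ω - θ_ω') ≠ 0` is contained in finitely many primes of `𝓞 L`; `R` = the primes `v` below them (`v` is
determined by `V`: finite).  Let `v ∉ R`, `g` a Frobenius element with the prime `V` above `v`, so `δ ∉ V`: the `θ_ω mod V` are different.
`ι : κ = 𝓞 k/v → κ' = 𝓞 L/V` is injective, `|κ| = q = q_v` (`Ideal.absNorm`).  If `a ∈ κ` is a root of `P̄` then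
`∏ (ι(a) - θ̄_ω) = 0`, so `ι(a) = θ̄_ω` for a unique `ω`; `ι(a)^q = ι(a)`, so `θ̄_(g ω) = θ̄_ω^q = θ̄_ω`, `g ω = ω`.  Conversely let `g ω = ω`:
`θ̄_ω^q = θ̄_ω`; `X^q - X` has at most `q` roots in `κ'`, and the `q` elements of `ι(κ)` are roots, so `θ̄_ω = ι(a)`,
`ι(P̄(a)) = ∏ (ι(a) - θ̄_ω') = 0`, `P̄(a) = 0`.  This is a bijection. -/
def StP4 : Prop := ∀ (k L : Type) [Field k] [NumberField k] [Field L] [NumberField L] [Algebra k L]
  [IsGalois k L] (Ω : Type) [Fintype Ω] [MulAction (L ≃ₐ[k] L) Ω] (θ : Ω → 𝓞 L) (P : (𝓞 k)[X]),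
  Function.Injective θ → (∀ (g : L ≃ₐ[k] L) (ω : Ω), g (θ ω : L) = (θ (g • ω) : L)) →
  P.map (algebraMap (𝓞 k) (𝓞 L)) = ∏ ω, (X - C (θ ω)) →
  ∃ R : Set (Pr k), R.Finite ∧ ∀ v, v ∉ R → ∀ g : L ≃ₐ[k] L, IsFrob v g → nr P v = fx Ω g

/-- **P5** (mean value of a permutation character at the Frobenius elements).  Hypotheses: StA2 StP2 StP3 StP4.
PROOF.  `G = L ≃ₐ[k] L` is finite.  `Ω` is the disjoint union of its orbits `O`, `fx Ω g = ∑_O fx O g`
(`MulAction.selfEquivSigmaOrbits`, or directly).  P3 and P4 for `O`: `fx O (σ v) = nr P v` for all `v` outside a finite set, so by P2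
the mean of `fx O (σ v)` is `1` (a finite set of primes contributes `O(s-1)`; all functions are bounded, `∑ wt s v` converges
for `s > 1`).  So the mean of `fx Ω (σ v)` is the number of orbits, which is `avg (fx Ω)` (Burnside,
`MulAction.sum_card_fixedBy_eq_card_orbits_mul_card_group`). -/
def StP5 : Prop := ∀ (k L : Type) [Field k] [NumberField k] [Field L] [NumberField L] [Algebra k L]
  [IsGalois k L] (σ : Pr k → (L ≃ₐ[k] L)) (R : Set (Pr k)), R.Finite → (∀ v, v ∉ R → IsFrob v (σ v)) →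
  ∀ (Ω : Type) [Fintype Ω] [MulAction (L ≃ₐ[k] L) Ω],
  Tendsto (fun s : ℝ => (s - 1) * ∑' v : Pr k, fx Ω (σ v) * wt s v) (𝓝[>] 1)
    (𝓝 (avg (fun g : L ≃ₐ[k] L => fx Ω g)))

/-- **P6** (Frobenius' density theorem for divisions).  Hypotheses: StA2 StG1 StP5.
PROOF.  The functions `φ` with the property in the conclusion form a subspace `P` of `G → ℝ` (`G` is finite, so every `φ` is bounded
and `∑ φ(σ v) wt s v` converges absolutely for `s > 1`; `avg` is linear).  It contains the permutation characters (P5), so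
by G1 all `φ` with `Div`. -/
def StP6 : Prop := ∀ (k L : Type) [Field k] [NumberField k] [Field L] [NumberField L] [Algebra k L]
  [IsGalois k L] (σ : Pr k → (L ≃ₐ[k] L)) (R : Set (Pr k)), R.Finite → (∀ v, v ∉ R → IsFrob v (σ v)) →
  ∀ φ : (L ≃ₐ[k] L) → ℝ, Div φ →
  Tendsto (fun s : ℝ => (s - 1) * ∑' v : Pr k, φ (σ v) * wt s v) (𝓝[>] 1) (𝓝 (avg φ))

/-! ## Analysis -/

/-- **Q1** (from `s = 2` to `s = 1`; compare `Pool/Agent/Helper24/TF/M_F7.lean`).  Hypotheses: StA2.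
PROOF.  `q_v log q_v q_v^(-s) = wt (s-1) v`, so `b_v log q_v q_v^(-s) = ρ_v wt (s-1) v + e_v wt s v`, `e_v = b_v - ρ_v q_v`.  `|e_v| ≤ C'` for
all `v` (`C' = |C| + ∑_(v ∈ R) |e_v|`), `wt s v ≤ wt 2 v` for `s ≥ 2`.  So the series converges for `s > 2` (A2) and
`|∑ e_v wt s v| ≤ C' ∑ wt 2 v`; multiplied by `s - 2` it tends to `0`. -/
def StQ1 : Prop := ∀ (k : Type) [Field k] [NumberField k] (b ρ : Pr k → ℝ) (M C : ℝ) (R : Set (Pr k)),
  R.Finite → (∀ v, |ρ v| ≤ M) → (∀ v, v ∉ R → |b v - ρ v * q v| ≤ C) →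
  (∀ s : ℝ, 2 < s → Summable (fun v : Pr k => b v * Real.log (q v) * (q v : ℝ) ^ (-s))) ∧
  Tendsto (fun s : ℝ => (s - 2) * FS b s - (s - 2) * ∑' v : Pr k, ρ v * wt (s - 1) v) (𝓝[>] 2) (𝓝 0)

/-- **Q2** (Bessel's inequality, general form; compare `Pool/Agent/Helper15/TT/M_A8.lean`).
PROOF.  `y_i = ∑' w c χ_i`, `W = ∑' w → 1`, `G_ij = ∑' w χ_i χ_j → δ_ij U_i`, `z_i = y_i/U_i` (`0` if `U_i = 0`; this is Lean's convention).
`0 ≤ ∑' w (c - ∑ z_i χ_i)² = ∑' w c² - 2 ∑ z_i y_i + ∑_ij z_i z_j G_ij ≤ B² W - ∑ y_i²/U_i + ∑_ij |z_i z_j| |G_ij - δ_ij U_i|`, as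
`z_i y_i = y_i²/U_i = z_i² U_i`.  `|y_i| ≤ B M W`, so the `z_i` are bounded for `s` near `1`, and the last sum tends to `0`. -/
def StQ2 : Prop := ∀ (V ι : Type) [Fintype ι] [DecidableEq ι] (w : ℝ → V → ℝ) (c : V → ℝ)
  (χ : ι → V → ℝ) (U : ι → ℝ) (B M : ℝ), (∀ᶠ s : ℝ in 𝓝[>] 1, (∀ v, 0 ≤ w s v) ∧ Summable (w s)) →
  Tendsto (fun s => ∑' v, w s v) (𝓝[>] 1) (𝓝 1) → (∀ v, |c v| ≤ B) → (∀ i v, |χ i v| ≤ M) →
  (∀ i j, Tendsto (fun s => ∑' v, w s v * (χ i v * χ j v)) (𝓝[>] 1) (𝓝 (if i = j then U i else 0))) →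
  ∀ ε > 0, ∀ᶠ s : ℝ in 𝓝[>] 1, ∑ i, (∑' v, w s v * (c v * χ i v)) ^ 2 / U i ≤ B ^ 2 + ε

/-- **Q3** (Hasse's bound).  Hypotheses: `Pool.Agent.Helper95.WS.StW11`.
PROOF.  `κ = Kv v` is a finite field with `q v` elements of odd characteristic.  `ptsF v h = ∑_x (1 + χ(h x)) + 1` (degree `3`,
`quadraticChar_card_sqrts`), so `trF v h = - ∑_x χ(h x)`, and W11 gives `≤ 2 · 1 · √q`. -/
def StQ3 : Prop := ∀ (k : Type) [Field k] [NumberField k] (v : Pr k), (2 : 𝓞 k) ∉ v.asIdeal →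
  ∀ h : (Kv v)[X], h.natDegree = 3 → Squarefree h → |(trF v h : ℝ)| ≤ 2 * √(q v)

/-! ## Assembly -/

/-- **M1** (the function `c`).  Hypotheses: StA7 StF1 StF2 StQ3.
PROOF.  For `2 ∉ v` let `c v = q^(-m) ∑_(y good) (a_y² - q)/q`, `a_y = trF v (fib f v y)`, and `c v = 1` for `2 ∈ v`.  `a_y² ≤ 4q` (Q3), so
each term is in `[-1, 3]`, and there are at most `q^m` terms: `c v ∈ [-1, 3]`.  Let `g v` be `q^(-m)` times the number of
good `y`.  `(a t)² - (a² - 2q) t₂ = a² (t² - t₂) + 2 q t₂ = 2q ((t² + t₂)/2 + ((a² - q)/q) (t² - t₂)/2)`, so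
`BN f v t t₂ = q (g v (t² + t₂)/2 + c v (t² - t₂)/2)`.  F2 and F1: `0 ≤ 1 - g v ≤ C/q` for `v` outside a finite set.  So the
difference is `q (1 - g v) |t² + t₂|/2 ≤ C (t² + |t₂|)`.  The primes with `2 ∈ v` are finitely many (A7). -/
def StM1 : Prop := ∀ (k : Type) [Field k] [NumberField k] (m : ℕ) (f : (Py k m)[X]), f.natDegree = 3 →
  (f.map (algebraMap (Py k m) (Ky k m))).Separable →
  ∃ (c : Pr k → ℝ) (C : ℝ) (R : Set (Pr k)), R.Finite ∧ (∀ v, |c v - 1| ≤ 2) ∧ ∀ v, v ∉ R → ∀ t t₂ : ℝ,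
    |BN f v t t₂ - q v * ((t ^ 2 + t₂) / 2 + c v * ((t ^ 2 - t₂) / 2))| ≤ C * (t ^ 2 + |t₂|)

/-- **M2** (main inequality, for an arbitrary bounded function `c`).  Hypotheses: StA2 StG3 StP6 StQ1 StQ2.
PROOF.  `G` is finite; `s_i = sy (χ i)`, `l_i = la (χ i)` have `Div` (G3), `r_i = avg s_i`, `m_i = avg l_i`, `λ_i = l_i - m_i`.  Everything is
bounded.  Q1 for `b₀`, `ρ = 3 + c`, and for `b_i`, `ρ_i = s_i(σ v) + c v l_i(σ v)`: with `s' = s - 1` and
`Φ_i(s') = (s'-1) ∑_v (ρ_i - m_i (3 + c)) wt s' v`: `(s-2)(FS b_i s - m_i FS b₀ s) - Φ_i(s-1) → 0`.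
`ρ_i - m_i (3 + c) = s_i(σ v) - 3 m_i + λ_i(σ v) + (c v - 1) λ_i(σ v)`.  By P6 (and A2 for constants) the mean of `s_i(σ v) - 3 m_i` is
`r_i - 3 m_i`, of `λ_i(σ v)` it is `0`, of `λ_i λ_j (σ v)` it is `avg (λ_i λ_j) = δ_ij U_i` (hypothesis).  So
`Φ_i(s') = r_i - 3 m_i + y_i(s') + o(1)`, `y_i(s') = (s'-1) ∑_v (c v - 1) λ_i(σ v) wt s' v`, and Q2 with `w = (s'-1) wt s' v`, `c - 1`, `B = 2`:
`∑ y_i²/U_i ≤ 4 + ε/2` eventually.  The `y_i` are bounded, so the `o(1)` changes the sum by `o(1)`.  (`U_i = 0`: the term is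
`0` by convention, nothing to prove.) -/
def StM2 : Prop := ∀ (k L : Type) [Field k] [NumberField k] [Field L] [NumberField L] [Algebra k L]
  [IsGalois k L] (σ : Pr k → (L ≃ₐ[k] L)) (R : Set (Pr k)), R.Finite → (∀ v, v ∉ R → IsFrob v (σ v)) →
  ∀ c : Pr k → ℝ, (∀ v, |c v - 1| ≤ 2) →
  ∀ (ι : Type) [Fintype ι] (χ : ι → (L ≃ₐ[k] L) → ℝ), (∀ i, Div (χ i)) →
  (∀ i j, i ≠ j →
    avg (fun g => (la (χ i) g - avg (la (χ i))) * (la (χ j) g - avg (la (χ j)))) = 0) →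
  ∀ (C : ℝ) (b₀ : Pr k → ℝ) (b : ι → Pr k → ℝ),
  (∀ v, v ∉ R → |b₀ v - q v * (3 + c v)| ≤ C) →
  (∀ i v, v ∉ R → |b i v - q v * (sy (χ i) (σ v) + c v * la (χ i) (σ v))| ≤ C) →
  (∀ s : ℝ, 2 < s → Summable (fun v : Pr k => b₀ v * Real.log (q v) * (q v : ℝ) ^ (-s)) ∧
    ∀ i, Summable (fun v : Pr k => b i v * Real.log (q v) * (q v : ℝ) ^ (-s))) ∧
  ∀ ε > 0, ∀ᶠ s : ℝ in 𝓝[>] 2,
    ∑ i, ((s - 2) * (FS (b i) s - avg (la (χ i)) * FS b₀ s) - (avg (sy (χ i)) - 3 * avg (la (χ i)))) ^ 2 /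
      avg (fun g => (la (χ i) g - avg (la (χ i))) ^ 2) ≤ 4 + ε

/-- **M3** (first theorem: all `G`-lattices).  Hypotheses: StG2 StM1 StM2.
PROOF.  `χ_i g = trace (ρ_i g)` has `Div` (G2).  `c`, `C'`, `R'` from M1.  `χ_i` is bounded by `T`.  For `v ∉ R ∪ R'`:
`|b_i v - q (sy (χ_i)(σ v) + c v la (χ_i)(σ v))| ≤ C + C'(T² + T)` (M1 with `t = χ_i(σ v)`, `t₂ = χ_i(σ v σ v)`), and
`|b₀ v - q (3 + c v)| ≤ C + C'(4 + 2)` (M1 with `t = t₂ = 2`).  M2. -/
def StM3 : Prop := ∀ (k : Type) [Field k] [NumberField k] (m : ℕ) (f : (Py k m)[X]), f.natDegree = 3 →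
  (f.map (algebraMap (Py k m) (Ky k m))).Separable →
  ∀ (L : Type) [Field L] [NumberField L] [Algebra k L] [IsGalois k L] (σ : Pr k → (L ≃ₐ[k] L))
  (R : Set (Pr k)), R.Finite → (∀ v, v ∉ R → IsFrob v (σ v)) →
  ∀ (ι : Type) [Fintype ι] (n : ι → ℕ) (ρ : (i : ι) → (L ≃ₐ[k] L) →* Matrix (Fin (n i)) (Fin (n i)) ℤ)
  (χ : ι → (L ≃ₐ[k] L) → ℝ), (∀ i g, χ i g = ((Matrix.trace (ρ i g) : ℤ) : ℝ)) →
  (∀ i j, i ≠ j →
    avg (fun g => (la (χ i) g - avg (la (χ i))) * (la (χ j) g - avg (la (χ j)))) = 0) →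
  ∀ (C : ℝ) (b₀ : Pr k → ℝ) (b : ι → Pr k → ℝ), (∀ v, v ∉ R → |b₀ v - BN f v 2 2| ≤ C) →
  (∀ i v, v ∉ R → |b i v - BN f v (χ i (σ v)) (χ i (σ v * σ v))| ≤ C) →
  (∀ s : ℝ, 2 < s → Summable (fun v : Pr k => b₀ v * Real.log (q v) * (q v : ℝ) ^ (-s)) ∧
    ∀ i, Summable (fun v : Pr k => b i v * Real.log (q v) * (q v : ℝ) ^ (-s))) ∧
  ∀ ε > 0, ∀ᶠ s : ℝ in 𝓝[>] 2,
    ∑ i, ((s - 2) * (FS (b i) s - avg (la (χ i)) * FS b₀ s) - (avg (sy (χ i)) - 3 * avg (la (χ i)))) ^ 2 /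
      avg (fun g => (la (χ i) g - avg (la (χ i))) ^ 2) ≤ 4 + ε

/-- **M4** (second theorem: Weil restrictions for all `S_n`-fields).  Hypotheses: StA10 StG3 StG4 StG5 StM1 StM2.
PROOF.  `χ_i = fx (X i)` has `Div` (G3), is bounded by `|X i|`; as in M3 the `b i` satisfy the hypothesis of M2 (put
`b₀ v = q v (3 + c v)`).  By G4: `avg la = 0`, `avg sy = 2`, `0 < U_i = avg (la²) ≤ 2`, and by G5 the `la (χ i)` are orthogonal.  M2 with
`ε/2`: `∑ ((s-2) FS (b i) s - 2)² ≤ ∑ 2 (..)²/U_i ≤ 8 + ε`.  Last part: let `S` be the set of all `i` for which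
`(s-2) FS (b i) s` tends to an integer `n_i ≠ 2`.  For `i ∈ S` the square tends to `(n_i - 2)² ≥ 1`, so
`|S| ≤ 8 + ε` for every `ε > 0` and `|S| ≤ 8`.  If `i ∉ S` and `G_i` exists then by A10 (with `2 ≤ q v`, and the summability) the
limit is an integer, hence `2`. -/
def StM4 : Prop := ∀ (k : Type) [Field k] [NumberField k] (m : ℕ) (f : (Py k m)[X]), f.natDegree = 3 →
  (f.map (algebraMap (Py k m) (Ky k m))).Separable →
  ∀ (L : Type) [Field L] [NumberField L] [Algebra k L] [IsGalois k L] (σ : Pr k → (L ≃ₐ[k] L))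
  (R : Set (Pr k)), R.Finite → (∀ v, v ∉ R → IsFrob v (σ v)) →
  ∀ (ι : Type) [Fintype ι] (X : ι → Type) [∀ i, Fintype (X i)] [∀ i, MulAction (L ≃ₐ[k] L) (X i)],
  (∀ i, Nat.card (X i) = 2 ∨ 4 ≤ Nat.card (X i)) →
  (∀ i (π : Equiv.Perm (X i)), ∃ g : L ≃ₐ[k] L, ∀ x, g • x = π x) →
  (∀ i j, i ≠ j → ∃ g : L ≃ₐ[k] L, ¬ ((∀ x : X i, g • x = x) ↔ ∀ x : X j, g • x = x)) →
  ∀ (C : ℝ) (b : ι → Pr k → ℝ),
  (∀ i v, v ∉ R → |b i v - BN f v (fx (X i) (σ v)) (fx (X i) (σ v * σ v))| ≤ C) →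
  (∀ s : ℝ, 2 < s → ∀ i, Summable (fun v : Pr k => b i v * Real.log (q v) * (q v : ℝ) ^ (-s))) ∧
  (∀ ε > 0, ∀ᶠ s : ℝ in 𝓝[>] 2, ∑ i, ((s - 2) * FS (b i) s - 2) ^ 2 ≤ 8 + ε) ∧
  ∃ S : Finset ι, S.card ≤ 8 ∧ ∀ i, i ∉ S →
    (∃ G : ℂ → ℂ, MeromorphicAt G 2 ∧
      ∀ᶠ s : ℝ in 𝓝[>] 2, G s = ((Real.exp (∑' v : Pr k, b i v * (q v : ℝ) ^ (-s)) : ℝ) : ℂ)) →
    Tendsto (fun s : ℝ => (s - 2) * FS (b i) s) (𝓝[>] 2) (𝓝 2)

end

end Pool.Agent.Helper97.TN
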