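import Pool.Agent.Helper97.TN.St
import Pool.Agent.Helper96.BC.St

/-!
# Project BC+ (MP_6090f9_nt): the residue formula under base change to fields with a 2-transitive group

THEOREM.  `k` a number field, `X` ANY smooth projective variety over `k`, or fibration over `k`: `b v` = trace of Frobenius on `H²`
(average over the fibres); all that is used is `|b v - c q_v| ≤ B q_v`.  Let `K_i/k` be finite extensions of any degrees, such that the
Galois groups of their Galois closures are 2-TRANSITIVE (on the embeddings of `K_i`; for example `S_n`, `A_n` (`n ≥ 4`), `PSL_2(q)`, affine groups,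
Mathieu groups) and the Galois closures are pairwise DIFFERENT.  Then for the base changes `X_i = X/K_i`:
`∑_i ((s-2) F_(X_i)(s) - (s-2) F_X(s))² ≤ B² + ε` for `s > 2` close to `2`.  No linear disjointness, no bound for the degrees in the
constant.  So if the residue formula Q1 holds for `X/k` with the residue `ρ`, then for all `K_i` with at most `B²` exceptions (all degrees
together): if `L_2(s, X/K_i)` is meromorphic at `2` then its order there is `-ρ`.

General form: extensions `K_i` such that `K_i ⊗ K_j` is a field for `i ≠ j`: `∑_i (..)²/(r_i - 1) ≤ B² + ε`, `r_i` the number of factors of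
`K_i ⊗ K_i`.

METHOD.  `N_K(v)`, the number of primes of degree one of `K` above `v`, is the number of the embeddings of `K` fixed by a
Frobenius element at `v`; Frobenius' density theorem (`StP6`) and Bessel's inequality (`StQ2`).  For 2-transitive groups
`N_K - 1` has norm one, and different Galois closures imply orthogonality because a nontrivial normal subgroup of a
2-transitive group is transitive.

`Above`, `Deg1`, `N1`, `S1`, `FK`, `StC1`, `StC2`: `Pool/Agent/Helper96/BC/St.lean` (helper96).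
-/

set_option autoImplicit false

namespace Pool.Agent.Helper97.TN

open NumberField IsDedekindDomain Polynomial Filter Topology
open Pool.Agent.Helper95.TT Pool.Agent.Helper96.BC
open scoped Classical

noncomputable section

/-- number of the embeddings of `K` into `L` (over `k`) fixed by `g` -/
def fxK (k K : Type) {L : Type} [Field k] [Field K] [Field L] [Algebra k K] [Algebra k L]
    (g : L ≃ₐ[k] L) : ℝ :=
  (Nat.card {x : K →ₐ[k] L // ∀ y, g (x y) = x y} : ℕ)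

/-- **B0** (Frobenius elements exist).
PROOF.  Let `V` be a prime of `𝓞 L` above `v` (nonzero).  The group `L ≃ₐ[k] L` acts on `𝓞 L` with the invariants `𝓞 k`
(`Algebra.IsInvariant`, `IsGaloisGroup`), and Mathlib's `IsArithFrobAt.exists_of_isInvariant` gives `g` with
`g x ≡ x^(|𝓞 k / (V ∩ 𝓞 k)|)` mod `V` for all `x ∈ 𝓞 L`; `V ∩ 𝓞 k = v` and `|𝓞 k / v| = q v` (`Ideal.absNorm`). -/
def StB0 : Prop := ∀ (k L : Type) [Field k] [NumberField k] [Field L] [NumberField L] [Algebra k L]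
  [IsGalois k L], ∃ σ : Pr k → (L ≃ₐ[k] L), ∀ v, IsFrob v (σ v)

/-- **B1** (primes of degree one and roots).
PROOF.  As StP1, for `F = K` and `P = minpoly (𝓞 k) θ` (monic; over `k` it is `minpoly k θ`, irreducible; `K = k(θ)`).  There is `0 ≠ d ∈ 𝓞 k`
with `d 𝓞 K ⊂ 𝓞 k[θ]` (`Algebra.discr_mul_isIntegral_mem_adjoin`); `R = {v | d ∈ v}`.  Let `v ∉ R`, `κ = 𝓞 k/v`.  For `w` with `Deg1 w v` the
injection `κ → 𝓞 K/w` is bijective, so there is a unique `a_w ∈ κ` mapped to `θ mod w`, and `P̄(a_w) = 0`.  Injective: `x ∈ w` iff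
`d x = g(θ) ∈ w` (`d ∉ w`) iff `ḡ(a_w) = 0`.  Surjective: for a root `a` of `P̄` put `φ(x) = ḡ(a)/d̄` where `d x = g(θ)`, `g ∈ 𝓞 k[X]`; it is a well
defined surjective ring homomorphism `𝓞 K → κ` extending `𝓞 k → κ` (see StP1), and `w = ker φ`. -/
def StB1 : Prop := ∀ (k K : Type) [Field k] [NumberField k] [Field K] [NumberField K] [Algebra k K]
  (θ : 𝓞 K), IntermediateField.adjoin k {(θ : K)} = ⊤ →
  ∃ R : Set (Pr k), R.Finite ∧ ∀ v, v ∉ R → (N1 K v : ℝ) = nr (minpoly (𝓞 k) θ) v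

/-- **B2** (primes of degree one and Frobenius elements).  Hypotheses: StP4 StB1.
PROOF.  `K = k(θ)`, `θ ∈ 𝓞 K` (primitive element times an integer).  `Ω = (K →ₐ[k] L)` with the action `g • x = g ∘ x`, `θ_x = x(θ) ∈ 𝓞 L`:
injective (`x` is determined by `x(θ)`) and `g θ_x = θ_(g x)`.  `P = minpoly (𝓞 k) θ`: over `L` it splits with simple roots
(`L/k` is Galois and contains `K`), and the roots are the `x(θ)` (`IntermediateField.algHomAdjoinIntegralEquiv`-type lemma or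
`Algebra.IsAlgebraic.range_eval_eq_rootSet_minpoly`-type lemma), so `P = ∏_x (X - θ_x)` over `L`, hence over `𝓞 L`.  P4: `nr P v = fx Ω g = fxK k K g`; B1. -/
def StB2 : Prop := ∀ (k K L : Type) [Field k] [NumberField k] [Field K] [NumberField K] [Field L]
  [NumberField L] [Algebra k K] [Algebra k L] [Algebra K L] [IsScalarTower k K L] [IsGalois k L],
  ∃ R : Set (Pr k), R.Finite ∧ ∀ v, v ∉ R → ∀ g : L ≃ₐ[k] L, IsFrob v g → (N1 K v : ℝ) = fxK k K g

/-- **B3** (base change, `K_i ⊗ K_j` fields).  Hypotheses: StA2 StG3 StP6 StQ2 StC1 StC2 StB0 StB2.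
PROOF.  `s' = s - 1`; `b log q q^(-s) = (b/q) wt s'`.  `α v = b v/q v` for `v ∉ R₀`, `0` otherwise; `β_i w = bK i w/q w` for `w ∉ R i`, `0`
otherwise; all bounded, so the series converge (A2) and `FK R₀ b s = ∑' α wt s'`, `FK (R i) (bK i) s = ∑' β_i wt s'`.  `G = L ≃ₐ[k] L`,
`N_i = fxK k (K i)`, the number of fixed points on `X_i = (K i →ₐ[k] L)`; it has `Div` (G3).  `σ` from B0.  For `v` outside a finite set
(C1, B2): all `w` above `v` are `∉ R i`, `v ∉ R₀`, `N1 (K i) v = N_i(σ v)`, and for `Deg1 w v`: `|β_i w - α v| ≤ C/q v`; so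
`|S1 β_i v - N_i(σ v) α v| ≤ C [K_i : k]/q v`.  As `∑ wt s' v/q v ≤ ∑ wt 2 v < ∞` and by C2:
`(s-2)(FK_i - FK₀) = (s'-1) ∑' α v (N_i(σ v) - 1) wt s' v + o(1)`.  Write `α v = c + μ v`, `|μ v| ≤ B` (`v ∉ R₀`; `μ v = 0` for `v ∈ R₀`, a finite set
changes the sum by `o(1)`).  `G` is transitive on `X_i`, so `avg N_i = 1` (Burnside) and by P6 the mean of `N_i(σ v) - 1` is `0`.  So
`(s-2)(FK_i - FK₀) = y_i(s') + o(1)`, `y_i = (s'-1) ∑' μ v (N_i(σ v) - 1) wt s' v`.  P6: the mean of `(N_i - 1)(N_j - 1)(σ v)` is its `avg`; for `i ≠ j` it is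
`avg (N_i N_j) - 1 - 1 + 1 = 0`, because `G` is transitive on `X_i × X_j` (hypothesis, Burnside).  Q2 with `U_i = avg ((N_i - 1)²)`:
`∑ y_i²/U_i ≤ B² + ε/2`; the `y_i` are bounded, so `o(1)` changes the sum by `o(1)`.  (`B ≥ 0`: there is some `v ∉ R₀`, by A2.) -/
def StB3 : Prop := ∀ (k : Type) [Field k] [NumberField k] (b : Pr k → ℝ) (c B C : ℝ)
  (R₀ : Set (Pr k)), R₀.Finite → (∀ v, v ∉ R₀ → |b v - c * q v| ≤ B * q v) →
  ∀ (L : Type) [Field L] [NumberField L] [Algebra k L] [IsGalois k L] (ι : Type) [Fintype ι]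
    (K : ι → Type) [∀ i, Field (K i)] [∀ i, NumberField (K i)] [∀ i, Algebra k (K i)]
    [∀ i, Algebra (K i) L] [∀ i, IsScalarTower k (K i) L] (bK : ∀ i, Pr (K i) → ℝ)
    (R : ∀ i, Set (Pr (K i))), (∀ i, (R i).Finite) →
  (∀ i j, i ≠ j → ∀ (x x' : K i →ₐ[k] L) (y y' : K j →ₐ[k] L),
    ∃ g : L ≃ₐ[k] L, (∀ z, g (x z) = x' z) ∧ ∀ z, g (y z) = y' z) →
  (∀ i w, w ∉ R i → |bK i w| ≤ C * q w) →
  (∀ i w v, w ∉ R i → Deg1 w v → |bK i w - b v| ≤ C) →
  (∀ s : ℝ, 2 < s → Summable (fun v : Pr k =>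
    if v ∈ R₀ then 0 else b v * Real.log (q v) * (q v : ℝ) ^ (-s))) ∧
  (∀ i, ∀ s : ℝ, 2 < s → Summable (fun w : Pr (K i) =>
    if w ∈ R i then 0 else bK i w * Real.log (q w) * (q w : ℝ) ^ (-s))) ∧
  ∀ ε > 0, ∀ᶠ s : ℝ in 𝓝[>] 2,
    ∑ i, ((s - 2) * FK (R i) (bK i) s - (s - 2) * FK R₀ b s) ^ 2 /
      avg (fun g : L ≃ₐ[k] L => (fxK k (K i) g - 1) ^ 2) ≤ B ^ 2 + ε

/-- **B4** (2-transitive groups).
PROOF.  (i) Let `g₀` act trivially on `X` but not on `Y` (the other case is symmetric), `N` the set of all `g` acting trivially on `X`, a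
normal subgroup.  `N` is transitive on `Y`: let `n ∈ N`, `n y₀ ≠ y₀`; for `y ≠ y'` choose `g` with `g y₀ = y`, `g (n y₀) = y'`; then
`(g n g⁻¹) y = y'`, and `g n g⁻¹ ∈ N`.  Given `x, x', y, y'` choose `g` with `g x = x'` (`G` is transitive on `X`: 2-transitive and `|X| ≥ 2`) and `n ∈ N`
with `n (g y) = y'`: `n g` does it.  (ii) Burnside: `avg (fx X) = 1`, `avg (fx X ^ 2) = avg (fx (X × X)) = 2` (two orbits: the diagonal and its
complement, not empty), so `avg ((fx X - 1)²) = 2 - 2 + 1`. -/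
def StB4 : Prop := ∀ (G : Type) [Group G] [Finite G] (X : Type) [Fintype X] [MulAction G X],
  2 ≤ Nat.card X → (∀ x y x' y' : X, x ≠ y → x' ≠ y' → ∃ g : G, g • x = x' ∧ g • y = y') →
  avg (fun g : G => (fx X g - 1) ^ 2) = 1 ∧
  ∀ (Y : Type) [Fintype Y] [MulAction G Y], 2 ≤ Nat.card Y →
    (∀ x y x' y' : Y, x ≠ y → x' ≠ y' → ∃ g : G, g • x = x' ∧ g • y = y') →
    (∃ g : G, ¬ ((∀ x : X, g • x = x) ↔ ∀ y : Y, g • y = y)) →
    ∀ (x x' : X) (y y' : Y), ∃ g : G, g • x = x' ∧ g • y = y'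

/-- **B5** (main theorem: base change to 2-transitive fields).  Hypotheses: StA10 StB3 StB4.
PROOF.  `X_i = (K i →ₐ[k] L)` with the action `g • x = g ∘ x` (`AlgEquiv` composed with `AlgHom`), `|X_i| = [K_i : k] ≥ 2` (`L` contains `K_i` and
is Galois over `k`: `AlgHom.card_of_splits`-type lemma), `fx X_i = fxK k (K i)`.  B4: the hypothesis of B3 holds for `i ≠ j` and the
denominators are `1`.  Last part: let `S` be the set of the `i` for which `(s-2) FK (R i) (bK i) s` tends to an integer `n_i ≠ ρ`.  The sum of the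
squares over `S` tends to `∑ (n_i - ρ)² ≥ |S|`, so `|S| ≤ B² + ε` for all `ε > 0`.  If `i ∉ S` and the meromorphic function exists, A10 (for
`V = Pr (K i)` and the numbers `if w ∈ R i then 0 else bK i w`) shows that the limit is an integer, hence `ρ`. -/
def StB5 : Prop := ∀ (k : Type) [Field k] [NumberField k] (b : Pr k → ℝ) (c B C : ℝ)
  (R₀ : Set (Pr k)), R₀.Finite → (∀ v, v ∉ R₀ → |b v - c * q v| ≤ B * q v) →
  ∀ (L : Type) [Field L] [NumberField L] [Algebra k L] [IsGalois k L] (ι : Type) [Fintype ι]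
    (K : ι → Type) [∀ i, Field (K i)] [∀ i, NumberField (K i)] [∀ i, Algebra k (K i)]
    [∀ i, Algebra (K i) L] [∀ i, IsScalarTower k (K i) L] (bK : ∀ i, Pr (K i) → ℝ)
    (R : ∀ i, Set (Pr (K i))), (∀ i, (R i).Finite) →
  (∀ i, 2 ≤ Module.finrank k (K i)) →
  (∀ i, ∀ x y x' y' : K i →ₐ[k] L, x ≠ y → x' ≠ y' →
    ∃ g : L ≃ₐ[k] L, (∀ z, g (x z) = x' z) ∧ ∀ z, g (y z) = y' z) →
  (∀ i j, i ≠ j → ∃ g : L ≃ₐ[k] L,
    ¬ ((∀ (x : K i →ₐ[k] L) (z : K i), g (x z) = x z) ↔ ∀ (x : K j →ₐ[k] L) (z : K j), g (x z) = x z)) →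
  (∀ i w, w ∉ R i → |bK i w| ≤ C * q w) →
  (∀ i w v, w ∉ R i → Deg1 w v → |bK i w - b v| ≤ C) →
  (∀ s : ℝ, 2 < s → Summable (fun v : Pr k =>
    if v ∈ R₀ then 0 else b v * Real.log (q v) * (q v : ℝ) ^ (-s))) ∧
  (∀ i, ∀ s : ℝ, 2 < s → Summable (fun w : Pr (K i) =>
    if w ∈ R i then 0 else bK i w * Real.log (q w) * (q w : ℝ) ^ (-s))) ∧
  (∀ ε > 0, ∀ᶠ s : ℝ in 𝓝[>] 2,
    ∑ i, ((s - 2) * FK (R i) (bK i) s - (s - 2) * FK R₀ b s) ^ 2 ≤ B ^ 2 + ε) ∧
  ∀ ρ : ℤ, Tendsto (fun s : ℝ => (s - 2) * FK R₀ b s) (𝓝[>] 2) (𝓝 ρ) →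
    ∃ S : Finset ι, (S.card : ℝ) ≤ B ^ 2 ∧ ∀ i, i ∉ S →
      (∃ G : ℂ → ℂ, MeromorphicAt G 2 ∧ ∀ᶠ s : ℝ in 𝓝[>] 2, G s =
        ((Real.exp (∑' w : Pr (K i), if w ∈ R i then 0 else bK i w * (q w : ℝ) ^ (-s)) : ℝ) : ℂ)) →
      Tendsto (fun s : ℝ => (s - 2) * FK (R i) (bK i) s) (𝓝[>] 2) (𝓝 ρ)

end

end Pool.Agent.Helper97.TN
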